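import Pool.Agent.N220.CF.B
import Pool.Agent.N733.TG.K

/-! Campaign CF (helper220): near `G q`, `q` the denominators of the good approximations of almost every real vector, there is no
element of a given thin set. -/

set_option autoImplicit false

open Filter Topology MeasureTheory Finset
open scoped ENNReal NNReal

namespace Pool.Agent.N220.CF

open Pool.Agent.N733.TG (Expanding NearG nearG_count)

variable {k : ℕ}

/-- **Dimension, windows.** -/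
theorem dim_windows {T : Type*} (S : Set T) (h : T → ℝ) {G : ℕ → ℝ} {d : ℝ} (hG : Expanding G d) {s κ τ : ℝ} (hs : 0 ≤ s)
    (hκ : 0 ≤ κ) (hκ1 : κ ≤ 1) (hτ : 0 ≤ τ)
    (hS : ∀ ε : ℝ, 0 < ε → ∃ C : ℝ, ∀ X : ℝ, 1 ≤ X →
      {t | t ∈ S ∧ h t ≤ X}.Finite ∧ ({t | t ∈ S ∧ h t ≤ X}.ncard : ℝ) ≤ C * X ^ (s + ε)) :
    dimH {α : Fin k → ℝ | ∃ c : ℝ, {q : ℕ | Approx c τ α q ∧ ∃ t ∈ S, |h t - G q| ≤ (q : ℝ) ^ κ}.Infinite} ≤
      ENNReal.ofReal ((k + (d * s + κ)) / (1 + τ)) := by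
  classical
  have hd := hG.one_le
  have h := dim_den (k := k) (NearG S h G κ) (θ := d * s + κ) (τ := τ) (by positivity) hτ (by
    intro ε hε
    obtain ⟨K, hK⟩ := nearG_count S h hG (s := s + ε / d) (κ := κ) (by positivity) hκ hκ1 (hS (ε / d) (by positivity))
    refine ⟨K, fun X hX => (hK X hX).trans (le_of_eq ?_)⟩
    congr 2
    field_simp
    ring)
  refine le_trans (dimH_mono ?_) h
  rintro α ⟨c, hc⟩
  refine ⟨c, fun hfin => hc (hfin.subset ?_)⟩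
  rintro q ⟨h1, h2⟩
  exact ⟨h2, h1⟩

/-- the approximation condition is monotone in `τ` -/
lemma Approx.mono {c τ τ' : ℝ} {α : Fin k → ℝ} {q : ℕ} (h : Approx c τ α q) (hτ : τ' ≤ τ) : Approx |c| τ' α q := by
  obtain ⟨h1, p, h2⟩ := h
  have hq : (1 : ℝ) ≤ q := by exact_mod_cast h1
  refine ⟨h1, p, fun i => (h2 i).trans ?_⟩
  calc c * (q : ℝ) ^ (-τ) ≤ |c| * (q : ℝ) ^ (-τ) := mul_le_mul_of_nonneg_right (le_abs_self c) (by positivity)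
    _ ≤ |c| * (q : ℝ) ^ (-τ') :=
      mul_le_mul_of_nonneg_left (Real.rpow_le_rpow_of_exponent_le hq (by linarith)) (abs_nonneg c)

/-- from dimension bounds for all `τ` to almost all `α` -/
theorem ae_of_dim (W : Set ℕ) (hk : 1 ≤ k) {θ : ℝ} (hθ : 0 ≤ θ)
    (h : ∀ τ : ℝ, 0 ≤ τ → dimH {α : Fin k → ℝ | ∃ c : ℝ, {q : ℕ | Approx c τ α q ∧ q ∈ W}.Infinite} ≤
      ENNReal.ofReal ((k + θ) / (1 + τ))) :
    ∀ᵐ α : Fin k → ℝ, ∀ τ c : ℝ, θ < k * τ → {q : ℕ | Approx c τ α q ∧ q ∈ W}.Finite := by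
  have hk0 : (0 : ℝ) < k := by exact_mod_cast hk
  have key : ∀ τ : ℚ, ∀ᵐ α : Fin k → ℝ, θ < k * (τ : ℝ) → ∀ c : ℝ, {q : ℕ | Approx c τ α q ∧ q ∈ W}.Finite := by
    intro τ
    by_cases hτ : θ < k * (τ : ℝ)
    · have hτ0 : 0 < (τ : ℝ) := by
        have : 0 < k * (τ : ℝ) := lt_of_le_of_lt hθ hτ
        exact (pos_iff_pos_of_mul_pos this).1 hk0
      have h1 := h τ hτ0.le
      have h2 : dimH {α : Fin k → ℝ | ∃ c : ℝ, {q : ℕ | Approx c τ α q ∧ q ∈ W}.Infinite} < ((k : ℝ≥0) : ℝ≥0∞) := by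
        refine lt_of_le_of_lt h1 ?_
        have h3 : (((k : ℝ≥0) : ℝ≥0∞)) = ENNReal.ofReal (k : ℝ) := by simp
        rw [h3]
        apply (ENNReal.ofReal_lt_ofReal_iff hk0).2
        rw [div_lt_iff₀ (by linarith)]
        nlinarith
      have h3 := hausdorffMeasure_of_dimH_lt h2
      have h4 : (Measure.hausdorffMeasure ((k : ℝ≥0) : ℝ) : Measure (Fin k → ℝ)) = volume := by
        rw [← hausdorffMeasure_pi_real (ι := Fin k)]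
        simp
      rw [h4] at h3
      rw [ae_iff]
      refine measure_mono_null ?_ h3
      intro α hα
      simp only [Set.mem_ofPred_eq, Classical.not_imp, not_forall] at hα
      obtain ⟨-, c, hc⟩ := hα
      exact ⟨c, hc⟩
    · exact Eventually.of_forall fun α hα => absurd hα hτ
  rw [← ae_all_iff] at key
  filter_upwards [key] with α hα τ c hτ
  obtain ⟨τ', h1, h2⟩ := exists_rat_btwn ((div_lt_iff₀ hk0).2 (by rw [mul_comm]; exact hτ) : θ / k < τ)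
  have h3 := hα τ' (by rw [div_lt_iff₀ hk0] at h1; rw [mul_comm]; exact h1) |c|
  refine h3.subset ?_
  rintro q ⟨h4, h5⟩
  exact ⟨h4.mono h2.le, h5⟩

/-- **Main tool.** Let the exceptional set `{t | Adm t ∧ ¬ Good t}` have `O_ε (X^(s + ε))` elements of height at most `X`, let `G`
be expanding of order `d`, and `d s + κ < 1`. The `α` in `R^k` such that for some `c` there are infinitely many `q` with
`|q α_i - p_i| ≤ c q^(-τ)` for which NOT every admissible `t` with a height within `q^κ` of `G q` is good, form a set of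
dimension at most `(k + d s + κ) / (1 + τ)`. For almost all `α` there are, for all `c` and all `τ > (d s + κ) / k` (for example
`τ = 1 / k`, as in Dirichlet's theorem), only finitely many such `q`. -/
theorem good_near {T : Type*} (Adm Good : T → Prop) (h : T → ℝ) {G : ℕ → ℝ} {d : ℝ} (hG : Expanding G d) {s κ : ℝ} (hs : 0 ≤ s)
    (hκ : 0 ≤ κ) (hκ1 : κ ≤ 1)
    (hS : ∀ ε : ℝ, 0 < ε → ∃ C : ℝ, ∀ X : ℝ, 1 ≤ X →
      {t | (Adm t ∧ ¬ Good t) ∧ h t ≤ X}.Finite ∧ ({t | (Adm t ∧ ¬ Good t) ∧ h t ≤ X}.ncard : ℝ) ≤ C * X ^ (s + ε))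
    (k : ℕ) (hk : 1 ≤ k) :
    (∀ τ : ℝ, 0 ≤ τ → dimH {α : Fin k → ℝ | ∃ c : ℝ, {q : ℕ | Approx c τ α q ∧
      ¬ ∀ t, Adm t → |h t - G q| ≤ (q : ℝ) ^ κ → Good t}.Infinite} ≤ ENNReal.ofReal ((k + (d * s + κ)) / (1 + τ))) ∧
    ∀ᵐ α : Fin k → ℝ, ∀ τ c : ℝ, d * s + κ < k * τ → {q : ℕ | Approx c τ α q ∧
      ¬ ∀ t, Adm t → |h t - G q| ≤ (q : ℝ) ^ κ → Good t}.Finite := by
  have hd := hG.one_le
  have e : ∀ (τ c : ℝ) (α : Fin k → ℝ), {q : ℕ | Approx c τ α q ∧ ¬ ∀ t, Adm t → |h t - G q| ≤ (q : ℝ) ^ κ → Good t} =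
      {q : ℕ | Approx c τ α q ∧ ∃ t ∈ {t | Adm t ∧ ¬ Good t}, |h t - G q| ≤ (q : ℝ) ^ κ} := by
    intro τ c α
    ext q
    simp only [Set.mem_ofPred_eq]
    constructor
    · rintro ⟨h1, h2⟩
      push Not at h2
      obtain ⟨t, h3, h4, h5⟩ := h2
      exact ⟨h1, t, ⟨h3, h5⟩, h4⟩
    · rintro ⟨h1, t, ⟨h3, h5⟩, h4⟩
      exact ⟨h1, fun h6 => h5 (h6 t h3 h4)⟩
  simp only [e]
  have h1 : ∀ τ : ℝ, 0 ≤ τ → dimH {α : Fin k → ℝ | ∃ c : ℝ, {q : ℕ | Approx c τ α q ∧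
      ∃ t ∈ {t | Adm t ∧ ¬ Good t}, |h t - G q| ≤ (q : ℝ) ^ κ}.Infinite} ≤
      ENNReal.ofReal ((k + (d * s + κ)) / (1 + τ)) := fun τ hτ => dim_windows {t | Adm t ∧ ¬ Good t} h hG hs hκ hκ1 hτ hS
  exact ⟨h1, ae_of_dim {q : ℕ | ∃ t ∈ {t | Adm t ∧ ¬ Good t}, |h t - G q| ≤ (q : ℝ) ^ κ} hk (by positivity) h1⟩

/-- the same for natural numbers (same hypothesis `hP` as in `Pool.Agent.N733.TG.keep_good_nat`) -/
theorem good_near_nat (Adm Good : ℕ → Prop) {G : ℕ → ℝ} {d : ℝ} (hG : Expanding G d) {s κ : ℝ} (hs : 0 ≤ s)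
    (hκ : 0 ≤ κ) (hκ1 : κ ≤ 1)
    (hP : ∀ ε : ℝ, 0 < ε → ∃ C : ℝ, ∀ X : ℕ, 1 ≤ X →
      ({t : ℕ | 1 ≤ t ∧ t ≤ X ∧ Adm t ∧ ¬ Good t}.ncard : ℝ) ≤ C * (X : ℝ) ^ (s + ε)) (k : ℕ) (hk : 1 ≤ k) :
    (∀ τ : ℝ, 0 ≤ τ → dimH {α : Fin k → ℝ | ∃ c : ℝ, {q : ℕ | Approx c τ α q ∧
      ¬ ∀ n : ℕ, 1 ≤ n → Adm n → |(n : ℝ) - G q| ≤ (q : ℝ) ^ κ → Good n}.Infinite} ≤
        ENNReal.ofReal ((k + (d * s + κ)) / (1 + τ))) ∧
    ∀ᵐ α : Fin k → ℝ, ∀ τ c : ℝ, d * s + κ < k * τ → {q : ℕ | Approx c τ α q ∧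
      ¬ ∀ n : ℕ, 1 ≤ n → Adm n → |(n : ℝ) - G q| ≤ (q : ℝ) ^ κ → Good n}.Finite := by
  have h := good_near (fun n : ℕ => 1 ≤ n ∧ Adm n) Good (fun n : ℕ => (n : ℝ)) hG hs hκ hκ1 (fun ε hε => by
    obtain ⟨C, hC⟩ := hP ε hε
    refine ⟨|C|, fun X hX => ?_⟩
    have h1 : {t : ℕ | ((1 ≤ t ∧ Adm t) ∧ ¬ Good t) ∧ (t : ℝ) ≤ X} = {t : ℕ | 1 ≤ t ∧ t ≤ ⌊X⌋₊ ∧ Adm t ∧ ¬ Good t} := by
      ext t
      simp only [Set.mem_ofPred_eq]
      constructor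
      · rintro ⟨⟨⟨a1, a2⟩, a3⟩, a4⟩
        exact ⟨a1, Nat.le_floor a4, a2, a3⟩
      · rintro ⟨a1, a4, a2, a3⟩
        exact ⟨⟨⟨a1, a2⟩, a3⟩, (Nat.le_floor_iff (by linarith)).1 a4⟩
    rw [h1]
    refine ⟨(Set.finite_Icc 1 ⌊X⌋₊).subset fun t ht => ⟨ht.1, ht.2.1⟩, ?_⟩
    refine (hC ⌊X⌋₊ (Nat.le_floor (by exact_mod_cast hX))).trans ?_
    exact (mul_le_mul_of_nonneg_right (le_abs_self _) (by positivity)).trans (mul_le_mul_of_nonneg_left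
      (Real.rpow_le_rpow (Nat.cast_nonneg _) (Nat.floor_le (by linarith)) (by positivity)) (abs_nonneg _))) k hk
  simpa only [and_imp] using h

end Pool.Agent.N220.CF
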