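import Pool.Agent.N220.CF.C
import Pool.Agent.N220.CF.D

/-! Campaign CF (helper220): final forms. -/

set_option autoImplicit false

open Filter Topology MeasureTheory Finset
open scoped ENNReal NNReal

namespace Pool.Agent.N220.CF

open Pool.Agent.N733.TG (Expanding NearG nearG_count)

/-- **The set `W` is rarely met, exponent `θ`.** (1) For all `k ≥ 1`, `τ ≥ 0` the vectors `α` in `R^k` such that for some `c`
infinitely many `q ∈ W` satisfy `|q α_i - p_i| ≤ c q^(-τ)` (some integers `p_i`) form a set of Hausdorff dimension at most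
`(k + θ) / (1 + τ)`. (2) For almost all `α` in `R^k` there are only finitely many such `q`, for all `c` and all `τ > θ / k`.
(3) For almost all real numbers `ξ` the set `W` contains only finitely many denominators of convergents of the continued
fraction of `ξ`. -/
def RarelyMet (θ : ℝ) (W : Set ℕ) : Prop :=
  (∀ k : ℕ, 1 ≤ k →
    (∀ τ : ℝ, 0 ≤ τ → dimH {α : Fin k → ℝ | ∃ c : ℝ, {q : ℕ | Approx c τ α q ∧ q ∈ W}.Infinite} ≤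
      ENNReal.ofReal ((k + θ) / (1 + τ))) ∧
    ∀ᵐ α : Fin k → ℝ, ∀ τ c : ℝ, θ < k * τ → {q : ℕ | Approx c τ α q ∧ q ∈ W}.Finite) ∧
  ∀ᵐ ξ : ℝ, ∀ᶠ n : ℕ in atTop, (ξ.convergent n).den ∉ W

theorem rarely_of_dim (W : Set ℕ) {θ : ℝ} (hθ : 0 ≤ θ) (hθ1 : θ < 1)
    (h : ∀ k : ℕ, 1 ≤ k → ∀ τ : ℝ, 0 ≤ τ → dimH {α : Fin k → ℝ | ∃ c : ℝ, {q : ℕ | Approx c τ α q ∧ q ∈ W}.Infinite} ≤
      ENNReal.ofReal ((k + θ) / (1 + τ))) : RarelyMet θ W := by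
  refine ⟨fun k hk => ⟨h k hk, ae_of_dim W hk hθ (h k hk)⟩, ?_⟩
  exact ae_convergent W hθ1 (by simpa using ae_of_dim W le_rfl hθ (h 1 le_rfl))

lemma RarelyMet.subset {θ : ℝ} {W W' : Set ℕ} (h : RarelyMet θ W) (hW : ∀ q, 1 ≤ q → q ∈ W' → q ∈ W) : RarelyMet θ W' := by
  obtain ⟨h1, h2⟩ := h
  have hs : ∀ (k : ℕ) (c τ : ℝ) (α : Fin k → ℝ), {q : ℕ | Approx c τ α q ∧ q ∈ W'} ⊆ {q : ℕ | Approx c τ α q ∧ q ∈ W} :=
    fun k c τ α q hq => ⟨hq.1, hW q hq.1.1 hq.2⟩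
  refine ⟨fun k hk => ⟨fun τ hτ => le_trans (dimH_mono ?_) ((h1 k hk).1 τ hτ), ?_⟩, ?_⟩
  · rintro α ⟨c, hc⟩
    exact ⟨c, hc.mono (hs k c τ α)⟩
  · filter_upwards [(h1 k hk).2] with α hα τ c hτ
    exact (hα τ c hτ).subset (hs k c τ α)
  · filter_upwards [h2] with ξ hξ
    filter_upwards [hξ] with n hn hn'
    exact hn (hW _ (ξ.convergent n).den_pos hn')

open Classical in
/-- **M1: a set with a power saving.** -/
theorem rarely_set (V : Set ℕ) {θ : ℝ} (hθ : 0 ≤ θ) (hθ1 : θ < 1)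
    (hV : ∀ ε : ℝ, 0 < ε → ∃ C : ℝ, ∀ X : ℕ, 1 ≤ X → (((Icc 1 X).filter (fun v => v ∈ V)).card : ℝ) ≤ C * (X : ℝ) ^ (θ + ε)) :
    RarelyMet θ V := by
  refine rarely_of_dim V hθ hθ1 fun k _ τ hτ => ?_
  refine le_trans (dimH_mono ?_) (dim_den V hθ hτ hV)
  rintro α ⟨c, hc⟩
  refine ⟨c, fun hfin => hc (hfin.subset ?_)⟩
  rintro q ⟨h1, h2⟩
  exact ⟨h2, h1⟩

/-- **M2: windows around `G q` without elements of a thin set.** -/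
theorem rarely_windows {T : Type*} (S : Set T) (h : T → ℝ) {G : ℕ → ℝ} {d : ℝ} (hG : Expanding G d) {s κ : ℝ} (hs : 0 ≤ s)
    (hκ : 0 ≤ κ) (h1 : d * s + κ < 1)
    (hS : ∀ ε : ℝ, 0 < ε → ∃ C : ℝ, ∀ X : ℝ, 1 ≤ X →
      {t | t ∈ S ∧ h t ≤ X}.Finite ∧ ({t | t ∈ S ∧ h t ≤ X}.ncard : ℝ) ≤ C * X ^ (s + ε)) :
    RarelyMet (d * s + κ) {q : ℕ | ∃ t ∈ S, |h t - G q| ≤ (q : ℝ) ^ κ} := by
  have hd := hG.one_le
  have hds : 0 ≤ d * s := by positivity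
  exact rarely_of_dim _ (by positivity) h1 fun k _ τ hτ => dim_windows S h hG hs hκ (by linarith) hτ hS

/-- **M3: the same for a property.** Same hypotheses as `Pool.Agent.N733.TG.keep_good`. -/
theorem rarely_good {T : Type*} (Adm Good : T → Prop) (h : T → ℝ) {G : ℕ → ℝ} {d : ℝ} (hG : Expanding G d) {s κ : ℝ}
    (hs : 0 ≤ s) (hκ : 0 ≤ κ) (h1 : d * s + κ < 1)
    (hS : ∀ ε : ℝ, 0 < ε → ∃ C : ℝ, ∀ X : ℝ, 1 ≤ X →
      {t | (Adm t ∧ ¬ Good t) ∧ h t ≤ X}.Finite ∧ ({t | (Adm t ∧ ¬ Good t) ∧ h t ≤ X}.ncard : ℝ) ≤ C * X ^ (s + ε)) :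
    RarelyMet (d * s + κ) {q : ℕ | ¬ ∀ t, Adm t → |h t - G q| ≤ (q : ℝ) ^ κ → Good t} := by
  refine (rarely_windows {t | Adm t ∧ ¬ Good t} h hG hs hκ h1 hS).subset ?_
  intro q _ hq
  simp only [Set.mem_ofPred_eq] at hq ⊢
  push Not at hq
  obtain ⟨t, h3, h4, h5⟩ := hq
  exact ⟨t, ⟨h3, h5⟩, h4⟩

/-- **M4: the same for natural numbers.** Same hypothesis `hP` as in `Pool.Agent.N733.TG.keep_good_nat`. -/
theorem rarely_good_nat (Adm Good : ℕ → Prop) {G : ℕ → ℝ} {d : ℝ} (hG : Expanding G d) {s κ : ℝ} (hs : 0 ≤ s)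
    (hκ : 0 ≤ κ) (h1 : d * s + κ < 1)
    (hP : ∀ ε : ℝ, 0 < ε → ∃ C : ℝ, ∀ X : ℕ, 1 ≤ X →
      ({t : ℕ | 1 ≤ t ∧ t ≤ X ∧ Adm t ∧ ¬ Good t}.ncard : ℝ) ≤ C * (X : ℝ) ^ (s + ε)) :
    RarelyMet (d * s + κ) {q : ℕ | ¬ ∀ n : ℕ, 1 ≤ n → Adm n → |(n : ℝ) - G q| ≤ (q : ℝ) ^ κ → Good n} := by
  have h := rarely_good (fun n : ℕ => 1 ≤ n ∧ Adm n) Good (fun n : ℕ => (n : ℝ)) hG hs hκ h1 (fun ε hε => by
    obtain ⟨C, hC⟩ := hP ε hε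
    refine ⟨|C|, fun X hX => ?_⟩
    have h1 : {t : ℕ | ((1 ≤ t ∧ Adm t) ∧ ¬ Good t) ∧ (t : ℝ) ≤ X} = {t : ℕ | 1 ≤ t ∧ t ≤ ⌊X⌋₊ ∧ Adm t ∧ ¬ Good t} := by
      ext t
      simp only [Set.mem_ofPred_eq]
      constructor
      · rintro ⟨⟨⟨a1, a2⟩, a3⟩, a4⟩
        exact ⟨a1, Nat.le_floor a4, a2, a3⟩
      · rintro ⟨a1, a4, a2, a3⟩
        exact ⟨⟨⟨a1, a2⟩, a3⟩, (Nat.le_floor_iff (by linarith)).1 a4⟩
    rw [h1]
    refine ⟨(Set.finite_Icc 1 ⌊X⌋₊).subset fun t ht => ⟨ht.1, ht.2.1⟩, ?_⟩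
    refine (hC ⌊X⌋₊ (Nat.le_floor (by exact_mod_cast hX))).trans ?_
    exact (mul_le_mul_of_nonneg_right (le_abs_self _) (by positivity)).trans (mul_le_mul_of_nonneg_left
      (Real.rpow_le_rpow (Nat.cast_nonneg _) (Nat.floor_le (by linarith)) (by positivity)) (abs_nonneg _)))
  simpa only [and_imp] using h

end Pool.Agent.N220.CF
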