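import Pool.Agent.N220.CF.M
import Pool.Agent.R459.Nbhd

/-! Campaign CL (helper220): Goldbach pairs in windows for the even integers near the denominators of the convergents of almost
every number. -/

set_option autoImplicit false

open Filter Topology MeasureTheory Finset

namespace Pool.Agent.N220.CF

open Pool.Agent.TH935.GF (En)

/-- the additive energy of order one of an injective family -/
lemma En_one {ι : Type} [Fintype ι] (v : ι → ℤ) (hv : Function.Injective v) : En 1 v = Fintype.card ι := by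
  classical
  unfold En
  rw [Nat.card_eq_fintype_card]
  refine Fintype.card_congr ⟨fun x => x.1.1 0, fun i => ⟨(fun _ => i, fun _ => i), rfl⟩, fun x => ?_, fun i => rfl⟩
  obtain ⟨⟨a, b⟩, h⟩ := x
  simp only [Fin.sum_univ_one] at h
  have h1 := hv h
  apply Subtype.ext
  apply Prod.ext
  · funext j
    simp [Subsingleton.elim j 0]
  · funext j
    simp only
    rw [Subsingleton.elim j 0, ← h1]

open Classical in
/-- **G1: the exceptional set for all integers.** For all but `X / (log X)^U` of the `q ≤ X` all even integers `m > 0` with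
`|m - (κ q + c)| ≤ (log q)^W` have the property `P`, if `P` follows from the asymptotic formula for the Goldbach pairs of `m` in
windows. -/
theorem gold_few (κ c : ℤ) (hκ : κ ≠ 0) (A W U m₀ : ℕ) (ε : ℝ) (hε : 0 < ε) (P : ℕ → Prop)
    (hP : ∀ m : ℕ, m₀ ≤ m → 2 ∣ m → Pool.Agent.W93.PG.WinP ε A m → P m) :
    ∃ X₀ : ℕ, ∀ X : ℕ, X₀ ≤ X →
      (((Icc 1 X).filter (fun q : ℕ => q ∈ {q : ℕ | ¬ ∀ m : ℕ, 0 < m → Even m → |(m : ℝ) - (κ * q + c)| ≤ Real.log q ^ W →
        P m})).card : ℝ) ≤ X / (Real.log X) ^ U := by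
  obtain ⟨N₀, h0⟩ := Pool.Agent.R459.near_even 1 A (κ.natAbs + c.natAbs) 1 W U m₀ le_rfl ε hε P hP
  obtain ⟨N₁, h1⟩ := Pool.Agent.H373R2.T7.ev_L' 1
  refine ⟨N₀ + N₁ + 1, fun X hX => ?_⟩
  have hL := h1 X (by omega)
  have hX0 : (0 : ℝ) < X := by exact_mod_cast (by omega : 0 < X)
  -- the family of all integers up to `X`
  obtain ⟨v, hv⟩ : ∃ v : Fin X → ℤ, v = fun i : Fin X => κ * (((i : ℕ) + 1 : ℕ) : ℤ) + c := ⟨_, rfl⟩
  have hinj : Function.Injective v := by
    intro i j hij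
    rw [hv] at hij
    simp only [add_left_inj] at hij
    have h2 := mul_left_cancel₀ hκ hij
    apply Fin.ext
    omega
  have hle : ∀ i, v i ≤ ((κ.natAbs + c.natAbs : ℕ) : ℤ) * (X : ℤ) := by
    intro i
    rw [hv]
    have e1 : ((((i : ℕ) + 1 : ℕ) : ℤ)) ≤ (X : ℤ) := by exact_mod_cast i.2
    have e0 : (0 : ℤ) ≤ ((((i : ℕ) + 1 : ℕ) : ℤ)) := by positivity
    have e2 : κ ≤ (κ.natAbs : ℤ) := by omega
    have e3 : c ≤ (c.natAbs : ℤ) := by omega
    have e4 : (1 : ℤ) ≤ X := by exact_mod_cast (by omega : 1 ≤ X)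
    have e5 : κ * (((i : ℕ) + 1 : ℕ) : ℤ) ≤ (κ.natAbs : ℤ) * X :=
      (mul_le_mul_of_nonneg_right e2 e0).trans (mul_le_mul_of_nonneg_left e1 (by positivity))
    have e6 : (c.natAbs : ℤ) ≤ (c.natAbs : ℤ) * X := le_mul_of_one_le_right (by positivity) e4
    rw [Nat.cast_add, add_mul]
    exact add_le_add e5 (e3.trans e6)
  have hE : (En 1 v : ℝ) * X ≤ Real.log X ^ 1 * (Fintype.card (Fin X) : ℝ) ^ (2 * 1) := by
    rw [En_one v hinj, Fintype.card_fin, pow_one]
    have e : (X : ℝ) ^ (2 * 1) = X * X := by ring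
    rw [e]
    exact le_mul_of_one_le_left (by positivity) hL
  -- the exceptional members
  obtain ⟨S, hS⟩ : ∃ S : Finset (Fin X), S = univ.filter (fun i : Fin X => ∃ m : ℕ, 0 < m ∧ Even m ∧
      |(((m : ℤ) - v i : ℤ) : ℝ)| ≤ Real.log X ^ W ∧ ¬ P m) := ⟨_, rfl⟩
  have hmain := h0 X (by omega) (Fin X) v hle hE S (fun i hi => by
    rw [hS, mem_filter] at hi
    exact hi.2)
  rw [Fintype.card_fin] at hmain
  refine le_trans ?_ hmain
  rw [Nat.cast_le]
  refine card_le_card_of_surjOn (fun i : Fin X => (i : ℕ) + 1) ?_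
  intro q hq
  rw [mem_coe, mem_filter, mem_Icc, Set.mem_ofPred_eq] at hq
  obtain ⟨⟨hq1, hq2⟩, hq3⟩ := hq
  push Not at hq3
  obtain ⟨m, hm0, hm1, hm2, hm3⟩ := hq3
  refine ⟨⟨q - 1, by omega⟩, ?_, by simp; omega⟩
  rw [mem_coe, hS, mem_filter]
  refine ⟨mem_univ _, m, hm0, hm1, ?_, hm3⟩
  rw [hv]
  simp only
  have e : ((q - 1 + 1 : ℕ) : ℤ) = q := by
    rw [Nat.sub_add_cancel hq1]
  rw [e]
  have e1 : (|((((m : ℤ) - (κ * q + c) : ℤ)) : ℝ)|) ≤ Real.log q ^ W := by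
    push_cast
    exact hm2
  refine e1.trans ?_
  apply pow_le_pow_left₀ (Real.log_natCast_nonneg q)
  exact Real.log_le_log (by exact_mod_cast hq1) (by exact_mod_cast hq2)

/-- **G2: Goldbach pairs in windows near the denominators of the convergents.** For one property `P`. -/
theorem gold_met (κ c : ℤ) (hκ : κ ≠ 0) (A W m₀ : ℕ) (ε : ℝ) (hε : 0 < ε) (P : ℕ → Prop)
    (hP : ∀ m : ℕ, m₀ ≤ m → 2 ∣ m → Pool.Agent.W93.PG.WinP ε A m → P m) :
    FinitelyMet {q : ℕ | ¬ ∀ m : ℕ, 0 < m → Even m → |(m : ℝ) - (κ * q + c)| ≤ Real.log q ^ W → P m} :=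
  by
    obtain ⟨X₀, h⟩ := gold_few κ c hκ A W 2 m₀ ε hε P hP
    exact finitely_usual _ le_rfl ⟨X₀, fun X hX => le_trans (le_of_eq (by congr!)) (h X hX)⟩

end Pool.Agent.N220.CF
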