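import Pool.Agent.N220.CF.H

/-! Campaign CL (helper220): general properties of integral vectors near linear forms in good approximations. -/

set_option autoImplicit false

open Filter Topology MeasureTheory Finset

namespace Pool.Agent.N220.CF

open Classical in
/-- **Gen: properties `P B X` of integral vectors which hold for all but `X^(k+1) / log ^ U X` of the vectors in boxes of side
`B X`, near linear forms of `(q, p_1, ..., p_k)`, at the dyadic scale.** -/
theorem gen_dyadic {k : ℕ} (hk : 1 ≤ k) (M : Matrix (Fin (k + 1)) (Fin (k + 1)) ℤ) (hM : M.det ≠ 0) (c : Fin (k + 1) → ℤ)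
    (P : ℕ → ℕ → (Fin (k + 1) → ℤ) → Prop) (mono : ∀ B B' X β, B ≤ B' → P B' X β → P B X β)
    (few : ∀ B U : ℕ, 1 ≤ U → ∃ X₀ : ℕ, ∀ X : ℕ, X₀ ≤ X → ∀ F : Finset (Fin (k + 1) → ℤ),
      (∀ β ∈ F, (∀ i, |β i| ≤ (B : ℤ) * X) ∧ ¬ P B X β) → (F.card : ℝ) ≤ (X : ℝ) ^ (k + 1) / Real.log X ^ U) (B W : ℕ) :
    VectorsFinitelyMet k {t | ∃ β : Fin (k + 1) → ℤ, (∀ i, |((β i - (M.mulVec (vec t) i + c i) : ℤ) : ℝ)| ≤ Real.log t.2 ^ W) ∧
      ¬ P B (2 ^ (Nat.log 2 t.2 + 1)) β} := by
  obtain ⟨S, hS⟩ : ∃ S : ℕ → Set ((Fin k → ℤ) × ℕ), S = fun X => {t | ∃ β : Fin (k + 1) → ℤ,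
      (∀ i, |((β i - (M.mulVec (vec t) i + c i) : ℤ) : ℝ)| ≤ Real.log t.2 ^ W) ∧ ¬ P B X β} := ⟨_, rfl⟩
  have key := vectors_dyadic k hk S (U := 2) le_rfl (by
    intro M₀
    -- the size of the constant terms
    obtain ⟨Q, hQ⟩ : ∃ Q : ℕ, ∀ i, ∑ j, |M i j| ≤ (Q : ℤ) := by
      refine ⟨(∑ i, ∑ j, |M i j|).toNat, fun i => ?_⟩
      have h0 : (0 : ℤ) ≤ ∑ i, ∑ j, |M i j| := Finset.sum_nonneg fun i _ => Finset.sum_nonneg fun j _ => abs_nonneg _
      rw [Int.toNat_of_nonneg h0]
      exact Finset.single_le_sum (f := fun i => ∑ j, |M i j|) (fun i _ => Finset.sum_nonneg fun j _ => abs_nonneg _) (mem_univ i)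
    obtain ⟨Cc, hCc⟩ : ∃ Cc : ℕ, ∀ i, |c i| ≤ (Cc : ℤ) := by
      refine ⟨(∑ i, |c i|).toNat, fun i => ?_⟩
      rw [Int.toNat_of_nonneg (Finset.sum_nonneg fun i _ => abs_nonneg _)]
      exact Finset.single_le_sum (f := fun i => |c i|) (fun i _ => abs_nonneg _) (mem_univ i)
    obtain ⟨B', hB'⟩ : ∃ B', B' = Q * (M₀ + 1) + Cc + B + 1 := ⟨_, rfl⟩
    obtain ⟨U', hU'⟩ : ∃ U', U' = 2 + (W + 1) * (k + 1) := ⟨_, rfl⟩
    obtain ⟨N₀, h0⟩ := few B' U' (by omega)
    obtain ⟨N₁, h1⟩ := Pool.Agent.H373R2.T7.ev_L' 3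
    obtain ⟨N₂, h2⟩ := Pool.Agent.H373R2.T7.ev_log' W 1
    refine ⟨N₀ + N₁ + N₂ + 1, fun X hX => ?_⟩
    have hL := h1 X (by omega)
    have hW := h2 X (by omega)
    rw [one_mul] at hW
    obtain ⟨L, hLd⟩ : ∃ L, L = Real.log (X : ℝ) := ⟨_, rfl⟩
    rw [← hLd] at hL hW ⊢
    have hL0 : 0 < L := by linarith
    have hX1 : (1 : ℝ) ≤ X := by exact_mod_cast (by omega : 1 ≤ X)
    have hsq : √(X : ℝ) ≤ X := by
      rw [Real.sqrt_le_left (by linarith)]
      nlinarith
    obtain ⟨R, hR⟩ : ∃ R : ℕ, R = ⌊L ^ W⌋₊ := ⟨_, rfl⟩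
    have hRX : (R : ℤ) ≤ X := by
      have : (R : ℝ) ≤ X := by
        rw [hR]
        exact (Nat.floor_le (by positivity)).trans (hW.trans hsq)
      exact_mod_cast this
    -- the box of the scale, as a finset
    obtain ⟨Bx, hBx⟩ : ∃ Bx : Finset ((Fin k → ℤ) × ℕ), Bx = (Box_finite k M₀ X).toFinset := ⟨_, rfl⟩
    obtain ⟨T, hT⟩ : ∃ T : (Fin (k + 1) → ℤ) → Finset ((Fin k → ℤ) × ℕ), T = fun r => Bx.filter (fun t =>
      (∀ i, |M.mulVec (vec t) i + c i + r i| ≤ (B' : ℤ) * X) ∧
        ¬ P B' X (fun i => M.mulVec (vec t) i + c i + r i)) := ⟨_, rfl⟩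
    have hTcard : ∀ r, ((T r).card : ℝ) ≤ (X : ℝ) ^ (k + 1) / L ^ U' := by
      intro r
      have hinj : Function.Injective (fun t : (Fin k → ℤ) × ℕ => fun i => M.mulVec (vec t) i + c i + r i) := by
        intro t t' h
        apply vec_inj
        have h3 : M.mulVec (vec t) = M.mulVec (vec t') := by
          funext i
          have h4 := congrFun h i
          simp only at h4
          linarith
        have h5 : M.mulVec (vec t - vec t') = 0 := by rw [Matrix.mulVec_sub, h3, sub_self]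
        exact sub_eq_zero.1 (Matrix.eq_zero_of_mulVec_eq_zero hM h5)
      have h3 := h0 X (by omega) ((T r).image (fun t => fun i => M.mulVec (vec t) i + c i + r i)) (by
        intro β hβ
        rw [mem_image] at hβ
        obtain ⟨t, ht, rfl⟩ := hβ
        rw [hT, mem_filter] at ht
        exact ht.2)
      rw [card_image_of_injective _ hinj, ← hLd] at h3
      exact h3
    have hsub : {t | t ∈ S X ∧ t ∈ Box k M₀ X} ⊆
        (((Fintype.piFinset fun _ : Fin (k + 1) => Icc (-(R : ℤ)) R).biUnion T : Finset ((Fin k → ℤ) × ℕ)) : Set ((Fin k → ℤ) × ℕ)) := by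
      rintro t ⟨ht1, ht2⟩
      rw [hS] at ht1
      obtain ⟨β, hβ1, hβ2⟩ := ht1
      rw [mem_coe, mem_biUnion]
      obtain ⟨hb1, hb2, hb3⟩ := ht2
      have ht20 : (1 : ℝ) ≤ t.2 := by exact_mod_cast hb1
      have hlog : Real.log t.2 ^ W ≤ L ^ W := by
        apply pow_le_pow_left₀ (Real.log_natCast_nonneg _)
        rw [hLd]
        exact Real.log_le_log (by linarith) (by exact_mod_cast hb2)
      have hr : ∀ i, |β i - (M.mulVec (vec t) i + c i)| ≤ (R : ℤ) := by
        intro i
        have h3 := (hβ1 i).trans hlog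
        rw [← Int.cast_abs] at h3
        have h4 : |β i - (M.mulVec (vec t) i + c i)| = ((|β i - (M.mulVec (vec t) i + c i)|.toNat : ℕ) : ℤ) :=
          (Int.toNat_of_nonneg (abs_nonneg _)).symm
        rw [h4]
        rw [h4] at h3
        rw [hR]
        exact_mod_cast Nat.le_floor (by exact_mod_cast h3)
      refine ⟨fun i => β i - (M.mulVec (vec t) i + c i), ?_, ?_⟩
      · rw [Fintype.mem_piFinset]
        exact fun i => mem_Icc.2 (abs_le.1 (hr i))
      · have e : (fun i => M.mulVec (vec t) i + c i + (β i - (M.mulVec (vec t) i + c i))) = β := by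
          funext i
          ring
        rw [hT, mem_filter]
        refine ⟨by rw [hBx, Set.Finite.mem_toFinset]; exact ⟨hb1, hb2, hb3⟩, fun i => ?_, ?_⟩
        · have e' : M.mulVec (vec t) i + c i + (β i - (M.mulVec (vec t) i + c i)) = β i := by ring
          rw [e']
          -- the size
          have hv : ∀ j, |vec t j| ≤ ((M₀ : ℤ) + 1) * X := by
            intro j
            refine Fin.cases ?_ (fun j => ?_) j
            · unfold vec
              rw [Fin.cons_zero, abs_of_nonneg (by positivity)]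
              have h5 : (t.2 : ℤ) ≤ X := by exact_mod_cast hb2
              have h6 : (0 : ℤ) ≤ (M₀ : ℤ) * X := by positivity
              linarith
            · unfold vec
              rw [Fin.cons_succ]
              have h5 := hb3 j
              have h6 : (0 : ℤ) ≤ (X : ℤ) := by positivity
              linarith
          have h7 : |M.mulVec (vec t) i| ≤ (Q : ℤ) * (((M₀ : ℤ) + 1) * X) := by
            unfold Matrix.mulVec dotProduct
            refine (abs_sum_le_sum_abs _ _).trans ?_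
            calc ∑ j, |M i j * vec t j| ≤ ∑ j, |M i j| * (((M₀ : ℤ) + 1) * X) := by
                  refine Finset.sum_le_sum fun j _ => ?_
                  rw [abs_mul]
                  exact mul_le_mul_of_nonneg_left (hv j) (abs_nonneg _)
              _ = (∑ j, |M i j|) * (((M₀ : ℤ) + 1) * X) := by rw [Finset.sum_mul]
              _ ≤ _ := mul_le_mul_of_nonneg_right (hQ i) (by positivity)
          have h8 : |β i| ≤ |M.mulVec (vec t) i| + |c i| + R := by
            have h9 : β i = M.mulVec (vec t) i + c i + (β i - (M.mulVec (vec t) i + c i)) := by ring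
            calc |β i| = |M.mulVec (vec t) i + c i + (β i - (M.mulVec (vec t) i + c i))| := by rw [← h9]
              _ ≤ |M.mulVec (vec t) i + c i| + |β i - (M.mulVec (vec t) i + c i)| := abs_add_le _ _
              _ ≤ |M.mulVec (vec t) i| + |c i| + R := add_le_add (abs_add_le _ _) (hr i)
          have h9 : (Cc : ℤ) ≤ (Cc : ℤ) * X := by
            have : (1 : ℤ) ≤ X := by exact_mod_cast (by omega : 1 ≤ X)
            nlinarith [Int.natCast_nonneg Cc]
          have h10 : (0 : ℤ) ≤ (B : ℤ) * X := by positivity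
          have h11 := hCc i
          rw [hB']
          push_cast
          nlinarith
        · rw [e]
          exact fun h => hβ2 (mono _ _ _ _ (by rw [hB']; omega) h)
    have h3 := Set.ncard_le_ncard hsub (Finset.finite_toSet _)
    rw [Set.ncard_coe_finset] at h3
    have h4 : (((Fintype.piFinset fun _ : Fin (k + 1) => Icc (-(R : ℤ)) R).biUnion T).card : ℝ) ≤
        (2 * R + 1) ^ (k + 1) * ((X : ℝ) ^ (k + 1) / L ^ U') := by
      have h5 : (((Fintype.piFinset fun _ : Fin (k + 1) => Icc (-(R : ℤ)) R).biUnion T).card : ℝ) ≤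
          ∑ r ∈ (Fintype.piFinset fun _ : Fin (k + 1) => Icc (-(R : ℤ)) R), ((T r).card : ℝ) := by
        exact_mod_cast card_biUnion_le
      refine h5.trans ((Finset.sum_le_sum fun r _ => hTcard r).trans ?_)
      rw [Finset.sum_const, nsmul_eq_mul]
      apply mul_le_mul_of_nonneg_right _ (by positivity)
      rw [Fintype.card_piFinset, Finset.prod_const, card_univ, Fintype.card_fin, Int.card_Icc]
      have : ((R : ℤ) + 1 - -(R : ℤ)) = ((2 * R + 1 : ℕ) : ℤ) := by
        push_cast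
        ring
      rw [this, Int.toNat_natCast]
      push_cast
      exact le_rfl
    have h5 : (2 * (R : ℝ) + 1) ≤ L ^ (W + 1) := by
      have h6 : (R : ℝ) ≤ L ^ W := by rw [hR]; exact Nat.floor_le (by positivity)
      have h7 : 1 ≤ L ^ W := one_le_pow₀ (by linarith)
      rw [pow_succ]
      nlinarith
    calc ((({t | t ∈ S X ∧ t ∈ Box k M₀ X}).ncard : ℕ) : ℝ)
        ≤ (((Fintype.piFinset fun _ : Fin (k + 1) => Icc (-(R : ℤ)) R).biUnion T).card : ℝ) := by exact_mod_cast h3
      _ ≤ (2 * R + 1) ^ (k + 1) * ((X : ℝ) ^ (k + 1) / L ^ U') := h4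
      _ ≤ (L ^ (W + 1)) ^ (k + 1) * ((X : ℝ) ^ (k + 1) / L ^ U') := by
          apply mul_le_mul_of_nonneg_right _ (by positivity)
          exact pow_le_pow_left₀ (by positivity) h5 _
      _ = (X : ℝ) ^ (k + 1) / L ^ 2 := by
          rw [hU', ← pow_mul, pow_add]
          field_simp
          ring)
  rw [hS] at key
  exact key


end Pool.Agent.N220.CF
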