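import Pool.Agent.N220.CF.V
import Pool.Agent.TH935.TF9

/-! Campaign CL (helper220): the quantitative Hypothesis H for systems of linear polynomials whose constant terms are close to
integral linear forms in good approximations `(p, q)`. -/

set_option autoImplicit false

open Filter Topology MeasureTheory Finset

namespace Pool.Agent.N220.CF

open Pool.Agent.TH935.TF
open Pool.Agent.TH935.GF (En)

/-- the additive energy of order one of an injective family -/
lemma En_inj {ι : Type} [Fintype ι] (v : ι → ℤ) (hv : Function.Injective v) : En 1 v = Fintype.card ι := by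
  classical
  unfold En
  rw [Nat.card_eq_fintype_card]
  refine Fintype.card_congr ⟨fun x => x.1.1 0, fun i => ⟨(fun _ => i, fun _ => i), rfl⟩, fun x => ?_, fun i => rfl⟩
  obtain ⟨⟨a, b⟩, h⟩ := x
  simp only [Fin.sum_univ_one] at h
  have h1 := hv h
  apply Subtype.ext
  apply Prod.ext
  · funext j
    simp [Subsingleton.elim j 0]
  · funext j
    simp only
    rw [Subsingleton.elim j 0, ← h1]

variable {K m : ℕ} {w : ℕ → ℝ} {sA sB : (Fin K → ℤ) → (Fin m → ℤ)}

/-- **H1: all integral vectors of constant terms.** -/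
theorem sys_few (hs : Sys K m w sA sB) (hK : 1 ≤ K) (A B D U : ℕ) (hB : 1 ≤ B) (ε : ℝ) (hε : 0 < ε) :
    ∃ N₀ : ℕ, ∀ N : ℕ, N₀ ≤ N → ∀ 𝒮 : Finset (Fin K → ℤ),
      (∀ β ∈ 𝒮, (∀ i, |β i| ≤ (B : ℤ) * N) ∧ ¬ HW sA sB ε A B D N β) → (𝒮.card : ℝ) ≤ (N : ℝ) ^ K / Real.log N ^ U := by
  classical
  obtain ⟨N₀, h0⟩ := transferP (k := K) 1 B 1 (U + K) (fun N β => HW sA sB ε A B D N β) (by
    obtain ⟨N₀, h1⟩ := fam_sys hs hK 1 A B 1 D (U + K) ε hε
    exact ⟨N₀, fun N hN x s hs hE 𝒮 hSx hS => h1 N hN x s hs hE 𝒮 hSx hS⟩)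
  obtain ⟨N₁, h1⟩ := Pool.Agent.H373R2.T7.ev_L' (2 * B + 1)
  refine ⟨N₀ + N₁ + 1, fun N hN 𝒮 hS => ?_⟩
  have hL := h1 N (by omega)
  have hB1 : (1 : ℝ) ≤ B := by exact_mod_cast hB
  have hL1 : 1 ≤ Real.log N := by linarith
  have hL0 : 0 < Real.log N := by linarith
  have hN1 : (1 : ℝ) ≤ N := by exact_mod_cast (by omega : 1 ≤ N)
  obtain ⟨I, hI⟩ : ∃ I : Finset ℤ, I = Icc (-((B : ℤ) * N)) ((B : ℤ) * N) := ⟨_, rfl⟩
  have hcard : Fintype.card I = 2 * B * N + 1 := by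
    rw [Fintype.card_coe, hI, Int.card_Icc]
    have : ((B : ℤ) * N + 1 - -((B : ℤ) * N)) = ((2 * B * N + 1 : ℕ) : ℤ) := by
      push_cast
      ring
    rw [this, Int.toNat_natCast]
  have hcR : ((Fintype.card I : ℕ) : ℝ) = 2 * B * N + 1 := by
    rw [hcard]
    push_cast
    rfl
  have hE : (En 1 (fun z : I => (z : ℤ)) : ℝ) * N ≤ Real.log N ^ 1 * (Fintype.card I : ℝ) ^ (2 * 1) := by
    rw [En_inj _ Subtype.val_injective, pow_one, hcR]
    have e1 : (N : ℝ) ≤ Real.log N * (2 * B * N + 1) := by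
      have e2 : (N : ℝ) ≤ 2 * B * N + 1 := by nlinarith
      have e3 : 0 ≤ 2 * (B : ℝ) * N + 1 := by positivity
      nlinarith
    have e4 : 0 ≤ 2 * (B : ℝ) * N + 1 := by positivity
    calc (2 * (B : ℝ) * N + 1) * N ≤ (2 * B * N + 1) * (Real.log N * (2 * B * N + 1)) := mul_le_mul_of_nonneg_left e1 e4
      _ = _ := by ring
  obtain ⟨T, hT⟩ : ∃ T : Finset (∀ _ : Fin K, I), T = univ.filter (fun q => (fun i => ((q i : I) : ℤ)) ∈ 𝒮) := ⟨_, rfl⟩
  have key := h0 N (by omega) (fun _ : Fin K => I) (fun _ z => (z : ℤ)) (by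
      intro i z
      have : (z : ℤ) ∈ Icc (-((B : ℤ) * N)) ((B : ℤ) * N) := by
        rw [← hI]
        exact z.2
      rw [mem_Icc] at this
      exact abs_le.2 this) (fun _ => hE) T (by
      intro q hq
      rw [hT, mem_filter] at hq
      exact (hS _ hq.2).2)
  have hle : 𝒮.card ≤ T.card := by
    refine card_le_card_of_surjOn (fun q : ∀ _ : Fin K, I => (fun i => ((q i : I) : ℤ))) ?_
    intro β hβ
    have hβ' := (hS β hβ).1
    refine ⟨fun i => ⟨β i, by rw [hI, mem_Icc]; exact abs_le.1 (hβ' i)⟩, ?_, rfl⟩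
    rw [mem_coe, hT, mem_filter]
    exact ⟨mem_univ _, hβ⟩
  have hprod : (∏ _i : Fin K, (Fintype.card I : ℝ)) = (2 * B * N + 1) ^ K := by
    rw [prod_const, card_univ, Fintype.card_fin, hcR]
  rw [hprod] at key
  have hle' : (𝒮.card : ℝ) ≤ T.card := by exact_mod_cast hle
  refine hle'.trans (key.trans ?_)
  rw [pow_add, ← div_div, div_right_comm]
  apply div_le_div_of_nonneg_right _ (by positivity)
  rw [div_le_iff₀ (by positivity), ← mul_pow]
  apply pow_le_pow_left₀ (by positivity)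
  nlinarith

lemma HW_mono_B {ε : ℝ} {A B B' D N : ℕ} (h : B ≤ B') {β : Fin K → ℤ} (hβ : HW sA sB ε A B' D N β) : HW sA sB ε A B D N β := by
  intro α h1 h2 h3 h4
  obtain ⟨S, hS, hS1, hS2⟩ := hβ α h1 h2 h3 h4
  exact ⟨S, hS, hS1, fun y₁ y₂ h5 h6 h7 => hS2 y₁ y₂ h5 (h6.trans (Nat.mul_le_mul_right _ h)) h7⟩

/-- **H2: from the dyadic scale `N` to `q`.** -/
theorem hw_scale (sA sB : (Fin K → ℤ) → (Fin m → ℤ)) (A B D : ℕ) (ε : ℝ) (hε : 0 < ε) : ∃ q₀ : ℕ, ∀ q : ℕ, q₀ ≤ q → ∀ N : ℕ, q < N → N ≤ 2 * q →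
    ∀ β : Fin K → ℤ, HW sA sB (ε / 2) (A + 1) B D N β → HW sA sB ε A B D q β := by
  obtain ⟨N₁, h1⟩ := Pool.Agent.H373R2.T7.ev_L' (2 * m / ε + 3)
  refine ⟨N₁ + 2, fun q hq N hqN hN2 β hβ α ha1 ha2 ha3 ha4 => ?_⟩
  have hq2 : (2 : ℝ) ≤ q := by exact_mod_cast (by omega : 2 ≤ q)
  have hq0 : (0 : ℝ) < q := by linarith
  have hNr : (q : ℝ) < N := by exact_mod_cast hqN
  have hN0 : (0 : ℝ) < N := by linarith
  have hN2r : (N : ℝ) ≤ 2 * q := by exact_mod_cast hN2
  obtain ⟨l, hl⟩ : ∃ l, l = Real.log (q : ℝ) := ⟨_, rfl⟩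
  obtain ⟨L, hL⟩ : ∃ L, L = Real.log (N : ℝ) := ⟨_, rfl⟩
  have hm0 : 0 ≤ 2 * (m : ℝ) / ε := by positivity
  have hlbig := h1 q (by omega)
  rw [← hl] at hlbig
  have hl3 : 3 ≤ l := by linarith
  have hl0 : 0 < l := by linarith
  have hlL : l ≤ L := by rw [hl, hL]; exact Real.log_le_log hq0 hNr.le
  have hL0 : 0 < L := by linarith
  have hLl : L ≤ l + 1 := by
    rw [hl, hL]
    have e1 : Real.log (N : ℝ) ≤ Real.log (2 * q) := Real.log_le_log hN0 hN2r
    rw [Real.log_mul (by norm_num) hq0.ne'] at e1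
    have := Real.log_two_lt_d9
    linarith
  have ha2' : ∀ i, ((α i).natAbs : ℝ) ≤ Real.log N ^ D := fun i => (ha2 i).trans (by
    rw [← hl, ← hL]
    exact pow_le_pow_left₀ hl0.le hlL D)
  obtain ⟨S, hS0, hS1, hS2⟩ := hβ α ha1 ha2' ha3 ha4
  refine ⟨S, hS0, hS1, fun y₁ y₂ h12 hy2 hΔ => ?_⟩
  rw [← hl] at hΔ ⊢
  have hy2' : y₂ ≤ B * N := hy2.trans (Nat.mul_le_mul_left _ hqN.le)
  have hΔ' : (N : ℝ) / Real.log N ^ (A + 1) ≤ (y₂ : ℝ) - y₁ := by
    refine le_trans ?_ hΔ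
    rw [← hL, div_le_div_iff₀ (by positivity) (by positivity), pow_succ]
    have e1 : l ^ A ≤ L ^ A := pow_le_pow_left₀ hl0.le hlL A
    have e2 : 0 ≤ L ^ A := by positivity
    calc (N : ℝ) * l ^ A ≤ (2 * q) * L ^ A := mul_le_mul hN2r e1 (by positivity) (by positivity)
      _ ≤ q * (L ^ A * L) := by
        have : (2 : ℝ) ≤ L := by linarith
        have e3 : 0 ≤ q * L ^ A := by positivity
        nlinarith
  have key := hS2 y₁ y₂ h12 hy2' hΔ'
  rw [← hL] at key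
  obtain ⟨c, hc⟩ : ∃ c, c = (cn (sA α) (sB β) y₁ y₂ : ℝ) := ⟨_, rfl⟩
  obtain ⟨Δ, hΔd⟩ : ∃ Δ, Δ = (y₂ : ℝ) - y₁ := ⟨_, rfl⟩
  rw [← hc, ← hΔd] at key ⊢
  have hΔ0 : 0 ≤ Δ := by
    rw [hΔd]
    have : (y₁ : ℝ) ≤ y₂ := by exact_mod_cast h12
    linarith
  obtain ⟨M, hM⟩ : ∃ M, M = S * Δ / l ^ m := ⟨_, rfl⟩
  have hM0 : 0 ≤ M := by rw [hM]; positivity
  obtain ⟨r, hr⟩ : ∃ r, r = (l / L) ^ m := ⟨_, rfl⟩
  have hMr : S * Δ / L ^ m = r * M := by
    rw [hr, hM, div_pow]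
    field_simp
  rw [hMr] at key
  rw [← hM]
  have hr1 : r ≤ 1 := by
    rw [hr]
    apply pow_le_one₀ (by positivity)
    rw [div_le_one hL0]
    exact hlL
  have hr0 : 0 ≤ r := by rw [hr]; positivity
  have hr2 : 1 - ε / 2 ≤ r := by
    have e1 : 1 - 1 / L ≤ l / L := by
      rw [sub_le_iff_le_add, ← add_div, le_div_iff₀ hL0]
      linarith
    have e2 : (-2 : ℝ) ≤ -(1 / L) := by
      have : 1 / L ≤ 1 := by
        rw [div_le_one hL0]
        linarith
      linarith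
    have e3 := one_add_mul_le_pow e2 m
    have e4 : (1 + -(1 / L)) ^ m ≤ r := by
      rw [hr]
      apply pow_le_pow_left₀
      · have : 1 / L ≤ 1 := by
          rw [div_le_one hL0]
          linarith
        linarith
      · linarith
    have e5 : (m : ℝ) * (1 / L) ≤ ε / 2 := by
      rw [mul_one_div, div_le_iff₀ hL0]
      have e6 : 2 * (m : ℝ) / ε ≤ L := by linarith
      rw [div_le_iff₀ hε] at e6
      linarith
    nlinarith
  have h3 : |c - M| ≤ |c - r * M| + |r * M - M| := abs_sub_le _ _ _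
  have h4 : |r * M - M| = (1 - r) * M := by
    rw [show r * M - M = -((1 - r) * M) by ring, abs_neg, abs_of_nonneg (mul_nonneg (by linarith) hM0)]
  have h5 : ε / 2 * (r * M) ≤ ε / 2 * M := mul_le_mul_of_nonneg_left (mul_le_of_le_one_left hM0 hr1) (by linarith)
  have h6 : (1 - r) * M ≤ ε / 2 * M := mul_le_mul_of_nonneg_right (by linarith) hM0
  linarith

/-- the vector `(q, p_1, ..., p_k)` -/
def vec {k : ℕ} (t : (Fin k → ℤ) × ℕ) : Fin (k + 1) → ℤ := Fin.cons (t.2 : ℤ) t.1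

lemma vec_inj {k : ℕ} : Function.Injective (vec (k := k)) := by
  rintro ⟨p, q⟩ ⟨p', q'⟩ h
  unfold vec at h
  have h1 := Fin.cons_injective2 h
  simp only at h1
  exact Prod.ext h1.2 (by exact_mod_cast h1.1)

open Classical in
/-- **H3: systems with `k + 1` constant terms near linear forms of `(q, p_1, ..., p_k)`, at the dyadic scale.** -/
theorem sys_dyadic {k m : ℕ} {w : ℕ → ℝ} {sA sB : (Fin (k + 1) → ℤ) → (Fin m → ℤ)} (hs : Sys (k + 1) m w sA sB) (hk : 1 ≤ k)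
    (M : Matrix (Fin (k + 1)) (Fin (k + 1)) ℤ) (hM : M.det ≠ 0) (c : Fin (k + 1) → ℤ) (A B D W : ℕ) (ε : ℝ) (hε : 0 < ε) :
    VectorsFinitelyMet k {t | ∃ β : Fin (k + 1) → ℤ, (∀ i, |((β i - (M.mulVec (vec t) i + c i) : ℤ) : ℝ)| ≤ Real.log t.2 ^ W) ∧
      ¬ HW sA sB ε A B D (2 ^ (Nat.log 2 t.2 + 1)) β} := by
  obtain ⟨S, hS⟩ : ∃ S : ℕ → Set ((Fin k → ℤ) × ℕ), S = fun X => {t | ∃ β : Fin (k + 1) → ℤ,
      (∀ i, |((β i - (M.mulVec (vec t) i + c i) : ℤ) : ℝ)| ≤ Real.log t.2 ^ W) ∧ ¬ HW sA sB ε A B D X β} := ⟨_, rfl⟩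
  have key := vectors_dyadic k hk S (U := 2) le_rfl (by
    intro M₀
    -- the size of the constant terms
    obtain ⟨Q, hQ⟩ : ∃ Q : ℕ, ∀ i, ∑ j, |M i j| ≤ (Q : ℤ) := by
      refine ⟨(∑ i, ∑ j, |M i j|).toNat, fun i => ?_⟩
      have h0 : (0 : ℤ) ≤ ∑ i, ∑ j, |M i j| := Finset.sum_nonneg fun i _ => Finset.sum_nonneg fun j _ => abs_nonneg _
      rw [Int.toNat_of_nonneg h0]
      exact Finset.single_le_sum (f := fun i => ∑ j, |M i j|) (fun i _ => Finset.sum_nonneg fun j _ => abs_nonneg _) (mem_univ i)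
    obtain ⟨Cc, hCc⟩ : ∃ Cc : ℕ, ∀ i, |c i| ≤ (Cc : ℤ) := by
      refine ⟨(∑ i, |c i|).toNat, fun i => ?_⟩
      rw [Int.toNat_of_nonneg (Finset.sum_nonneg fun i _ => abs_nonneg _)]
      exact Finset.single_le_sum (f := fun i => |c i|) (fun i _ => abs_nonneg _) (mem_univ i)
    obtain ⟨B', hB'⟩ : ∃ B', B' = Q * (M₀ + 1) + Cc + B + 1 := ⟨_, rfl⟩
    obtain ⟨U', hU'⟩ : ∃ U', U' = 2 + (W + 1) * (k + 1) := ⟨_, rfl⟩
    obtain ⟨N₀, h0⟩ := sys_few hs (by omega : 1 ≤ k + 1) A B' D U' (by omega) ε hε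
    obtain ⟨N₁, h1⟩ := Pool.Agent.H373R2.T7.ev_L' 3
    obtain ⟨N₂, h2⟩ := Pool.Agent.H373R2.T7.ev_log' W 1
    refine ⟨N₀ + N₁ + N₂ + 1, fun X hX => ?_⟩
    have hL := h1 X (by omega)
    have hW := h2 X (by omega)
    rw [one_mul] at hW
    obtain ⟨L, hLd⟩ : ∃ L, L = Real.log (X : ℝ) := ⟨_, rfl⟩
    rw [← hLd] at hL hW ⊢
    have hL0 : 0 < L := by linarith
    have hX1 : (1 : ℝ) ≤ X := by exact_mod_cast (by omega : 1 ≤ X)
    have hsq : √(X : ℝ) ≤ X := by
      rw [Real.sqrt_le_left (by linarith)]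
      nlinarith
    obtain ⟨R, hR⟩ : ∃ R : ℕ, R = ⌊L ^ W⌋₊ := ⟨_, rfl⟩
    have hRX : (R : ℤ) ≤ X := by
      have : (R : ℝ) ≤ X := by
        rw [hR]
        exact (Nat.floor_le (by positivity)).trans (hW.trans hsq)
      exact_mod_cast this
    -- the box of the scale, as a finset
    obtain ⟨Bx, hBx⟩ : ∃ Bx : Finset ((Fin k → ℤ) × ℕ), Bx = (Box_finite k M₀ X).toFinset := ⟨_, rfl⟩
    obtain ⟨T, hT⟩ : ∃ T : (Fin (k + 1) → ℤ) → Finset ((Fin k → ℤ) × ℕ), T = fun r => Bx.filter (fun t =>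
      (∀ i, |M.mulVec (vec t) i + c i + r i| ≤ (B' : ℤ) * X) ∧
        ¬ HW sA sB ε A B' D X (fun i => M.mulVec (vec t) i + c i + r i)) := ⟨_, rfl⟩
    have hTcard : ∀ r, ((T r).card : ℝ) ≤ (X : ℝ) ^ (k + 1) / L ^ U' := by
      intro r
      have hinj : Function.Injective (fun t : (Fin k → ℤ) × ℕ => fun i => M.mulVec (vec t) i + c i + r i) := by
        intro t t' h
        apply vec_inj
        have h3 : M.mulVec (vec t) = M.mulVec (vec t') := by
          funext i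
          have h4 := congrFun h i
          simp only at h4
          linarith
        have h5 : M.mulVec (vec t - vec t') = 0 := by rw [Matrix.mulVec_sub, h3, sub_self]
        exact sub_eq_zero.1 (Matrix.eq_zero_of_mulVec_eq_zero hM h5)
      have h3 := h0 X (by omega) ((T r).image (fun t => fun i => M.mulVec (vec t) i + c i + r i)) (by
        intro β hβ
        rw [mem_image] at hβ
        obtain ⟨t, ht, rfl⟩ := hβ
        rw [hT, mem_filter] at ht
        exact ht.2)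
      rw [card_image_of_injective _ hinj, ← hLd] at h3
      exact h3
    have hsub : {t | t ∈ S X ∧ t ∈ Box k M₀ X} ⊆
        (((Fintype.piFinset fun _ : Fin (k + 1) => Icc (-(R : ℤ)) R).biUnion T : Finset ((Fin k → ℤ) × ℕ)) : Set ((Fin k → ℤ) × ℕ)) := by
      rintro t ⟨ht1, ht2⟩
      rw [hS] at ht1
      obtain ⟨β, hβ1, hβ2⟩ := ht1
      rw [mem_coe, mem_biUnion]
      obtain ⟨hb1, hb2, hb3⟩ := ht2
      have ht20 : (1 : ℝ) ≤ t.2 := by exact_mod_cast hb1
      have hlog : Real.log t.2 ^ W ≤ L ^ W := by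
        apply pow_le_pow_left₀ (Real.log_natCast_nonneg _)
        rw [hLd]
        exact Real.log_le_log (by linarith) (by exact_mod_cast hb2)
      have hr : ∀ i, |β i - (M.mulVec (vec t) i + c i)| ≤ (R : ℤ) := by
        intro i
        have h3 := (hβ1 i).trans hlog
        rw [← Int.cast_abs] at h3
        have h4 : |β i - (M.mulVec (vec t) i + c i)| = ((|β i - (M.mulVec (vec t) i + c i)|.toNat : ℕ) : ℤ) :=
          (Int.toNat_of_nonneg (abs_nonneg _)).symm
        rw [h4]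
        rw [h4] at h3
        rw [hR]
        exact_mod_cast Nat.le_floor (by exact_mod_cast h3)
      refine ⟨fun i => β i - (M.mulVec (vec t) i + c i), ?_, ?_⟩
      · rw [Fintype.mem_piFinset]
        exact fun i => mem_Icc.2 (abs_le.1 (hr i))
      · have e : (fun i => M.mulVec (vec t) i + c i + (β i - (M.mulVec (vec t) i + c i))) = β := by
          funext i
          ring
        rw [hT, mem_filter]
        refine ⟨by rw [hBx, Set.Finite.mem_toFinset]; exact ⟨hb1, hb2, hb3⟩, fun i => ?_, ?_⟩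
        · have e' : M.mulVec (vec t) i + c i + (β i - (M.mulVec (vec t) i + c i)) = β i := by ring
          rw [e']
          -- the size
          have hv : ∀ j, |vec t j| ≤ ((M₀ : ℤ) + 1) * X := by
            intro j
            refine Fin.cases ?_ (fun j => ?_) j
            · unfold vec
              rw [Fin.cons_zero, abs_of_nonneg (by positivity)]
              have h5 : (t.2 : ℤ) ≤ X := by exact_mod_cast hb2
              have h6 : (0 : ℤ) ≤ (M₀ : ℤ) * X := by positivity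
              linarith
            · unfold vec
              rw [Fin.cons_succ]
              have h5 := hb3 j
              have h6 : (0 : ℤ) ≤ (X : ℤ) := by positivity
              linarith
          have h7 : |M.mulVec (vec t) i| ≤ (Q : ℤ) * (((M₀ : ℤ) + 1) * X) := by
            unfold Matrix.mulVec dotProduct
            refine (abs_sum_le_sum_abs _ _).trans ?_
            calc ∑ j, |M i j * vec t j| ≤ ∑ j, |M i j| * (((M₀ : ℤ) + 1) * X) := by
                  refine Finset.sum_le_sum fun j _ => ?_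
                  rw [abs_mul]
                  exact mul_le_mul_of_nonneg_left (hv j) (abs_nonneg _)
              _ = (∑ j, |M i j|) * (((M₀ : ℤ) + 1) * X) := by rw [Finset.sum_mul]
              _ ≤ _ := mul_le_mul_of_nonneg_right (hQ i) (by positivity)
          have h8 : |β i| ≤ |M.mulVec (vec t) i| + |c i| + R := by
            have h9 : β i = M.mulVec (vec t) i + c i + (β i - (M.mulVec (vec t) i + c i)) := by ring
            calc |β i| = |M.mulVec (vec t) i + c i + (β i - (M.mulVec (vec t) i + c i))| := by rw [← h9]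
              _ ≤ |M.mulVec (vec t) i + c i| + |β i - (M.mulVec (vec t) i + c i)| := abs_add_le _ _
              _ ≤ |M.mulVec (vec t) i| + |c i| + R := add_le_add (abs_add_le _ _) (hr i)
          have h9 : (Cc : ℤ) ≤ (Cc : ℤ) * X := by
            have : (1 : ℤ) ≤ X := by exact_mod_cast (by omega : 1 ≤ X)
            nlinarith [Int.natCast_nonneg Cc]
          have h10 : (0 : ℤ) ≤ (B : ℤ) * X := by positivity
          have h11 := hCc i
          rw [hB']
          push_cast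
          nlinarith
        · rw [e]
          exact fun h => hβ2 (HW_mono_B (by rw [hB']; omega) h)
    have h3 := Set.ncard_le_ncard hsub (Finset.finite_toSet _)
    rw [Set.ncard_coe_finset] at h3
    have h4 : (((Fintype.piFinset fun _ : Fin (k + 1) => Icc (-(R : ℤ)) R).biUnion T).card : ℝ) ≤
        (2 * R + 1) ^ (k + 1) * ((X : ℝ) ^ (k + 1) / L ^ U') := by
      have h5 : (((Fintype.piFinset fun _ : Fin (k + 1) => Icc (-(R : ℤ)) R).biUnion T).card : ℝ) ≤
          ∑ r ∈ (Fintype.piFinset fun _ : Fin (k + 1) => Icc (-(R : ℤ)) R), ((T r).card : ℝ) := by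
        exact_mod_cast card_biUnion_le
      refine h5.trans ((Finset.sum_le_sum fun r _ => hTcard r).trans ?_)
      rw [Finset.sum_const, nsmul_eq_mul]
      apply mul_le_mul_of_nonneg_right _ (by positivity)
      rw [Fintype.card_piFinset, Finset.prod_const, card_univ, Fintype.card_fin, Int.card_Icc]
      have : ((R : ℤ) + 1 - -(R : ℤ)) = ((2 * R + 1 : ℕ) : ℤ) := by
        push_cast
        ring
      rw [this, Int.toNat_natCast]
      push_cast
      exact le_rfl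
    have h5 : (2 * (R : ℝ) + 1) ≤ L ^ (W + 1) := by
      have h6 : (R : ℝ) ≤ L ^ W := by rw [hR]; exact Nat.floor_le (by positivity)
      have h7 : 1 ≤ L ^ W := one_le_pow₀ (by linarith)
      rw [pow_succ]
      nlinarith
    calc ((({t | t ∈ S X ∧ t ∈ Box k M₀ X}).ncard : ℕ) : ℝ)
        ≤ (((Fintype.piFinset fun _ : Fin (k + 1) => Icc (-(R : ℤ)) R).biUnion T).card : ℝ) := by exact_mod_cast h3
      _ ≤ (2 * R + 1) ^ (k + 1) * ((X : ℝ) ^ (k + 1) / L ^ U') := h4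
      _ ≤ (L ^ (W + 1)) ^ (k + 1) * ((X : ℝ) ^ (k + 1) / L ^ U') := by
          apply mul_le_mul_of_nonneg_right _ (by positivity)
          exact pow_le_pow_left₀ (by positivity) h5 _
      _ = (X : ℝ) ^ (k + 1) / L ^ 2 := by
          rw [hU', ← pow_mul, pow_add]
          field_simp
          ring)
  rw [hS] at key
  exact key

/-- **H4: the same at the scale `q`.** -/
theorem sys_vec {k m : ℕ} {w : ℕ → ℝ} {sA sB : (Fin (k + 1) → ℤ) → (Fin m → ℤ)} (hs : Sys (k + 1) m w sA sB) (hk : 1 ≤ k)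
    (M : Matrix (Fin (k + 1)) (Fin (k + 1)) ℤ) (hM : M.det ≠ 0) (c : Fin (k + 1) → ℤ) (A B D W : ℕ) (ε : ℝ) (hε : 0 < ε) :
    VectorsFinitelyMet k {t | ∃ β : Fin (k + 1) → ℤ, (∀ i, |((β i - (M.mulVec (vec t) i + c i) : ℤ) : ℝ)| ≤ Real.log t.2 ^ W) ∧
      ¬ HW sA sB ε A B D t.2 β} := by
  obtain ⟨q₀, hq₀⟩ := hw_scale sA sB A B D ε hε
  refine (sys_dyadic hs hk M hM c (A + 1) B D W (ε / 2) (by linarith)).large (q₀ + 1) ?_
  rintro t ht ⟨β, h1, h2⟩
  refine ⟨β, h1, fun h3 => h2 ?_⟩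
  have ht0 : t.2 ≠ 0 := by omega
  exact hq₀ t.2 (by omega) _ (Nat.lt_pow_succ_log_self one_lt_two _) (by
    rw [pow_succ, mul_comm]
    exact Nat.mul_le_mul_left 2 (Nat.pow_log_le_self 2 ht0)) β h3

end Pool.Agent.N220.CF
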