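import Pool.Agent.N220.CF.H

/-! Campaign CL (helper220): systems with one constant term near a linear form in the denominator. -/

set_option autoImplicit false

open Filter Topology MeasureTheory Finset

namespace Pool.Agent.N220.CF

open Pool.Agent.TH935.TF

open Classical in
/-- **H5: systems with one constant term near `κ q + c`.** -/
theorem sys_den {m : ℕ} {w : ℕ → ℝ} {sA sB : (Fin 1 → ℤ) → (Fin m → ℤ)} (hs : Sys 1 m w sA sB) (κ c : ℤ) (hκ : κ ≠ 0)
    (A B D W : ℕ) (ε : ℝ) (hε : 0 < ε) :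
    FinitelyMet {q : ℕ | ∃ y : ℤ, |((y - (κ * q + c) : ℤ) : ℝ)| ≤ Real.log q ^ W ∧ ¬ HW sA sB ε A B D q (fun _ => y)} := by
  obtain ⟨S, hS⟩ : ∃ S : ℕ → Set ℕ, S = fun X => {q : ℕ | ∃ y : ℤ, |((y - (κ * q + c) : ℤ) : ℝ)| ≤ Real.log q ^ W ∧
    ¬ HW sA sB (ε / 2) (A + 1) B D X (fun _ => y)} := ⟨_, rfl⟩
  have key := finitely_dyadic S (U := 2) le_rfl (by
    obtain ⟨B', hB'⟩ : ∃ B', B' = κ.natAbs + c.natAbs + B + 1 := ⟨_, rfl⟩
    obtain ⟨U', hU'⟩ : ∃ U', U' = 2 + (W + 1) := ⟨_, rfl⟩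
    obtain ⟨N₀, h0⟩ := sys_few hs le_rfl (A + 1) B' D U' (by omega) (ε / 2) (by linarith)
    obtain ⟨N₁, h1⟩ := Pool.Agent.H373R2.T7.ev_L' 3
    obtain ⟨N₂, h2⟩ := Pool.Agent.H373R2.T7.ev_log' W 1
    refine ⟨N₀ + N₁ + N₂ + 1, fun X hX => ?_⟩
    have hL := h1 X (by omega)
    have hW := h2 X (by omega)
    rw [one_mul] at hW
    obtain ⟨L, hLd⟩ : ∃ L, L = Real.log (X : ℝ) := ⟨_, rfl⟩
    rw [← hLd] at hL hW ⊢
    have hL0 : 0 < L := by linarith
    have hX1 : (1 : ℝ) ≤ X := by exact_mod_cast (by omega : 1 ≤ X)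
    have hsq : √(X : ℝ) ≤ X := by
      rw [Real.sqrt_le_left (by linarith)]
      nlinarith
    obtain ⟨R, hR⟩ : ∃ R : ℕ, R = ⌊L ^ W⌋₊ := ⟨_, rfl⟩
    have hRX : (R : ℤ) ≤ X := by
      have : (R : ℝ) ≤ X := by
        rw [hR]
        exact (Nat.floor_le (by positivity)).trans (hW.trans hsq)
      exact_mod_cast this
    obtain ⟨T, hT⟩ : ∃ T : ℤ → Finset ℕ, T = fun r => (Icc 1 X).filter (fun q : ℕ =>
      (|κ * q + c + r| ≤ (B' : ℤ) * X) ∧ ¬ HW sA sB (ε / 2) (A + 1) B' D X (fun _ => κ * q + c + r)) := ⟨_, rfl⟩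
    have hTcard : ∀ r, ((T r).card : ℝ) ≤ (X : ℝ) / L ^ U' := by
      intro r
      have hinj : Function.Injective (fun q : ℕ => fun _ : Fin 1 => κ * (q : ℤ) + c + r) := by
        intro q q' h
        have h4 := congrFun h 0
        simp only at h4
        have h5 : κ * (q : ℤ) = κ * q' := by linarith
        exact_mod_cast mul_left_cancel₀ hκ h5
      have h3 := h0 X (by omega) ((T r).image (fun q : ℕ => fun _ : Fin 1 => κ * (q : ℤ) + c + r)) (by
        intro β hβ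
        rw [mem_image] at hβ
        obtain ⟨q, hq, rfl⟩ := hβ
        rw [hT, mem_filter] at hq
        exact ⟨fun _ => hq.2.1, hq.2.2⟩)
      rw [card_image_of_injective _ hinj, ← hLd, pow_one] at h3
      exact h3
    have hsub : (Icc 1 X).filter (fun v => v ∈ S X) ⊆ (Icc (-(R : ℤ)) R).biUnion T := by
      intro q hq
      rw [mem_filter, mem_Icc, hS] at hq
      obtain ⟨⟨hq1, hq2⟩, y, hy1, hy2⟩ := hq
      rw [mem_biUnion]
      have hq0 : (1 : ℝ) ≤ q := by exact_mod_cast hq1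
      have hlog : Real.log q ^ W ≤ L ^ W := by
        apply pow_le_pow_left₀ (Real.log_natCast_nonneg _)
        rw [hLd]
        exact Real.log_le_log (by linarith) (by exact_mod_cast hq2)
      have hr : |y - (κ * q + c)| ≤ (R : ℤ) := by
        have h3 := hy1.trans hlog
        rw [← Int.cast_abs] at h3
        have h4 : |y - (κ * q + c)| = ((|y - (κ * q + c)|.toNat : ℕ) : ℤ) := (Int.toNat_of_nonneg (abs_nonneg _)).symm
        rw [h4]
        rw [h4] at h3
        rw [hR]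
        exact_mod_cast Nat.le_floor (by exact_mod_cast h3)
      refine ⟨y - (κ * q + c), mem_Icc.2 (abs_le.1 hr), ?_⟩
      have e : κ * (q : ℤ) + c + (y - (κ * q + c)) = y := by ring
      rw [hT, mem_filter, mem_Icc, e]
      refine ⟨⟨hq1, hq2⟩, ?_, fun h => hy2 (HW_mono_B (by rw [hB']; omega) h)⟩
      have h7 : |κ * (q : ℤ)| ≤ (κ.natAbs : ℤ) * X := by
        rw [abs_mul, Int.abs_eq_natAbs κ, abs_of_nonneg (Int.natCast_nonneg q)]
        exact mul_le_mul_of_nonneg_left (by exact_mod_cast hq2) (Int.natCast_nonneg _)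
      have h8 : |y| ≤ |κ * (q : ℤ)| + |c| + R := by
        calc |y| = |κ * (q : ℤ) + c + (y - (κ * q + c))| := by rw [e]
          _ ≤ |κ * (q : ℤ) + c| + |y - (κ * q + c)| := abs_add_le _ _
          _ ≤ |κ * (q : ℤ)| + |c| + R := add_le_add (abs_add_le _ _) hr
      have h9 : |c| ≤ (c.natAbs : ℤ) * X := by
        rw [Int.abs_eq_natAbs]
        have : (1 : ℤ) ≤ X := by exact_mod_cast (by omega : 1 ≤ X)
        nlinarith [Int.natCast_nonneg c.natAbs]
      have h10 : (0 : ℤ) ≤ (B : ℤ) * X := by positivity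
      rw [hB']
      push_cast
      push_cast at h7 h9
      nlinarith
    have h4 : (((Icc (-(R : ℤ)) R).biUnion T).card : ℝ) ≤ (2 * R + 1) * ((X : ℝ) / L ^ U') := by
      have h5 : (((Icc (-(R : ℤ)) R).biUnion T).card : ℝ) ≤ ∑ r ∈ Icc (-(R : ℤ)) R, ((T r).card : ℝ) := by
        exact_mod_cast card_biUnion_le
      refine h5.trans ((Finset.sum_le_sum fun r _ => hTcard r).trans ?_)
      rw [Finset.sum_const, nsmul_eq_mul]
      apply mul_le_mul_of_nonneg_right _ (by positivity)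
      rw [Int.card_Icc]
      have : ((R : ℤ) + 1 - -(R : ℤ)) = ((2 * R + 1 : ℕ) : ℤ) := by
        push_cast
        ring
      rw [this, Int.toNat_natCast]
      push_cast
      exact le_rfl
    have h5 : (2 * (R : ℝ) + 1) ≤ L ^ (W + 1) := by
      have h6 : (R : ℝ) ≤ L ^ W := by rw [hR]; exact Nat.floor_le (by positivity)
      have h7 : 1 ≤ L ^ W := one_le_pow₀ (by linarith)
      rw [pow_succ]
      nlinarith
    calc (((Icc 1 X).filter (fun v => v ∈ S X)).card : ℝ)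
        ≤ (((Icc (-(R : ℤ)) R).biUnion T).card : ℝ) := by exact_mod_cast card_le_card hsub
      _ ≤ (2 * R + 1) * ((X : ℝ) / L ^ U') := h4
      _ ≤ L ^ (W + 1) * ((X : ℝ) / L ^ U') := by
          apply mul_le_mul_of_nonneg_right h5 (by positivity)
      _ = (X : ℝ) / L ^ 2 := by
          rw [hU', pow_add]
          field_simp
          ring)
  obtain ⟨q₀, hq₀⟩ := hw_scale sA sB A B D ε hε
  refine key.large (q₀ + 1) ?_
  rintro q hq ⟨y, h1, h2⟩
  rw [Set.mem_ofPred_eq, hS]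
  refine ⟨y, h1, fun h3 => h2 ?_⟩
  have hq0 : q ≠ 0 := by omega
  exact hq₀ q (by omega) _ (Nat.lt_pow_succ_log_self one_lt_two _) (by
    rw [pow_succ, mul_comm]
    exact Nat.mul_le_mul_left 2 (Nat.pow_log_le_self 2 hq0)) _ h3

end Pool.Agent.N220.CF
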