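import Pool.Agent.N699.PP.Main

/-! Campaign CL (helper220): sign patterns of the Liouville function at random positions, for the members of an arbitrary set,
and the law of the uniform distribution on `{0, ..., B N}`. The proof follows `Pool.Agent.N699.PP.pattern_law` (helper699). -/

set_option autoImplicit false

namespace Pool.Agent.N220.CF.Li
open Finset
open Pool.Agent.H807R2.Dav
open Pool.Agent.H373R2.T7
open Pool.Agent.N699.RP
open Pool.Agent.N699.GC
open Pool.Agent.N699.PP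
open Pool.Agent.W93.TD (avg_w total_w)

/-- the patterns at the positions `v i` are equidistributed in the part of the set `𝒜` in all the intervals and progressions -/
def GpA (𝒜 : Set ℕ) {s : ℕ} (U N K Y : ℕ) (v : Fin s → ℕ) : Prop := ∀ q r a b : ℕ, 1 ≤ q → q ≤ K → r < q → a ≤ b → b ≤ Y →
  ∀ ε : Fin s → ℝ, (∀ i, ε i = 1 ∨ ε i = -1) → ∀ T : Finset ℕ, (∀ x, x ∈ T ↔ (a < x ∧ x ≤ b) ∧ x % q = r ∧ x ∈ 𝒜) →
  |((T.filter fun x => ∀ i, li (x + v i) = ε i).card : ℝ) - (T.card : ℝ) / 2 ^ s| ≤ N / Real.log N ^ U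

open Classical in
theorem pattern_lawA (A B B1 U : ℕ) (hB : 1 ≤ B) (hB1 : 1 ≤ B1) : ∀ E : ℕ, ∃ N₀ : ℕ, ∀ N, N₀ ≤ N → ∀ (𝒜 : Set ℕ) (s : ℕ)
    (Ω : Fin s → Finset ℕ) (p : Fin s → ℕ → ℝ), (∀ i, Lw B E (2 * (4 * A + 3 * U + 4) + 2 * A + 1) N (Ω i) (p i)) →
    ∀ K : ℕ, 1 ≤ K → (K : ℝ) ≤ Real.log N ^ A →
    ∑ v ∈ Fintype.piFinset Ω, (if GpA 𝒜 U N K (B1 * K * N) v then 0 else ∏ i, p i (v i)) ≤ 1 / Real.log N ^ U := by
  intro E
  obtain ⟨V, hV⟩ : ∃ V, V = 4 * A + 3 * U + 4 := ⟨_, rfl⟩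
  rw [← hV]
  obtain ⟨n1, h1⟩ := one_li A B (2 * B1) E V hB (by omega)
  obtain ⟨n2, h2⟩ := ev_L' (16 * (B1 : ℝ) + 4)
  obtain ⟨n3, h3⟩ := log_small (U + 1) 2
  refine ⟨n1 + n2 + n3 + 3, fun N hN 𝒜 s Ω p hlaw K hK1 hK => ?_⟩
  have hp : ∀ i, ∀ u ∈ Ω i, 0 ≤ p i u := fun i => (hlaw i).1
  have hp1 : ∀ i, ∑ u ∈ Ω i, p i u = 1 := fun i => (hlaw i).2.1
  have hN1 : 1 ≤ N := by omega
  have hN0 : (0 : ℝ) < N := by exact_mod_cast hN1
  have a2 := h2 N (by omega)
  have a3 := h3 N (by omega)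
  have hone := fun i => h1 N (by omega) (Ω i) (p i) (hlaw i) K hK1 hK
  obtain ⟨L, hLd⟩ : ∃ L, L = Real.log (N : ℝ) := ⟨_, rfl⟩
  rw [← hLd] at a2 a3 hK hone ⊢
  have hB1r : (1 : ℝ) ≤ B1 := by exact_mod_cast hB1
  have hL1 : 1 ≤ L := by linarith
  have hL0 : 0 < L := by linarith
  have hKr : (1 : ℝ) ≤ K := by exact_mod_cast hK1
  have hLA : 1 ≤ L ^ A := one_le_pow₀ hL1
  obtain ⟨D, hD⟩ : ∃ D, D = ⌊N / L ^ (U + 1)⌋₊ := ⟨_, rfl⟩
  have hq2 : 2 ≤ (N : ℝ) / L ^ (U + 1) := by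
    rw [le_div_iff₀ (by positivity)]
    exact a3
  have hDle : (D : ℝ) ≤ N / L ^ (U + 1) := by rw [hD]; exact Nat.floor_le (by positivity)
  have hDge : (N : ℝ) / L ^ (U + 1) / 2 ≤ D := by
    have := Nat.lt_floor_add_one ((N : ℝ) / L ^ (U + 1))
    rw [← hD] at this
    linarith
  have hD1 : 1 ≤ D := by
    have : (1 : ℝ) ≤ D := by linarith
    exact_mod_cast this
  have hD0 : (0 : ℝ) < D := by exact_mod_cast hD1
  obtain ⟨Y, hY⟩ : ∃ Y, Y = B1 * K * N := ⟨_, rfl⟩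
  obtain ⟨R, hR⟩ : ∃ R, R = Y / D + 1 := ⟨_, rfl⟩
  have hRD : Y ≤ R * D := by
    rw [hR, add_mul, one_mul]
    have := Nat.div_add_mod Y D
    have := Nat.mod_lt Y (show D > 0 by omega)
    nlinarith
  have hDN : D ≤ N := by
    have : (D : ℝ) ≤ N := hDle.trans (div_le_self hN0.le (one_le_pow₀ hL1))
    exact_mod_cast this
  have hRD2 : R * D ≤ 2 * B1 * K * N := by
    rw [hR, add_mul, one_mul]
    have e1 := Nat.div_mul_le_self Y D
    have e2 : N ≤ B1 * K * N := Nat.le_mul_of_pos_left _ (Nat.mul_pos hB1 hK1)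
    calc Y / D * D + D ≤ B1 * K * N + B1 * K * N := by rw [← hY]; rw [← hY] at e2; omega
      _ = 2 * B1 * K * N := by ring
  have hRr : (R : ℝ) ≤ 4 * B1 * L ^ A * L ^ (U + 1) := by
    have e1 : ((Y / D : ℕ) : ℝ) ≤ (Y : ℝ) / D := Nat.cast_div_le
    have e2 : (Y : ℝ) / D ≤ 2 * B1 * K * L ^ (U + 1) := by
      rw [div_le_iff₀ hD0]
      calc (Y : ℝ) = 2 * B1 * K * L ^ (U + 1) * (N / L ^ (U + 1) / 2) := by
            rw [hY]
            push_cast
            field_simp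
        _ ≤ _ := mul_le_mul_of_nonneg_left hDge (by positivity)
    have e3 : (R : ℝ) = ((Y / D : ℕ) : ℝ) + 1 := by rw [hR]; push_cast; ring
    have e4 : 2 * B1 * (K : ℝ) * L ^ (U + 1) ≤ 2 * B1 * L ^ A * L ^ (U + 1) := by
      apply mul_le_mul_of_nonneg_right _ (by positivity)
      exact mul_le_mul_of_nonneg_left hK (by positivity)
    have e5 : 1 ≤ 2 * B1 * L ^ A * L ^ (U + 1) := by
      have : 1 ≤ L ^ A * L ^ (U + 1) := one_le_mul_of_one_le_of_one_le hLA (one_le_pow₀ hL1)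
      nlinarith
    rw [e3]
    linarith
  -- the sum of all the correlations
  obtain ⟨G, hGd⟩ : ∃ G : ℕ × ℕ × ℕ → ℕ → ℝ, G = fun x y => if y ∈ Ioc (x.2.2 * D) ((x.2.2 + 1) * D) ∧ y % x.1 = x.2.1 ∧ y ∈ 𝒜 then 1 else 0 :=
    ⟨_, rfl⟩
  have hG1 : ∀ x y, |G x y| ≤ 1 := by
    intro x y
    rw [hGd]
    simp only
    split_ifs <;> norm_num
  obtain ⟨I, hI⟩ : ∃ I : Finset (ℕ × ℕ × ℕ), I = Icc 1 K ×ˢ range K ×ˢ range R := ⟨_, rfl⟩
  obtain ⟨S, hS⟩ : ∃ S : ℕ × ℕ × ℕ → (Fin s → ℕ) → ℝ, S = fun x v => Z 1 (R * D) (G x) v := ⟨_, rfl⟩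
  have hSn : ∀ x v, 0 ≤ S x v := by
    intro x v
    rw [hS]
    exact Z_nonneg _ _ _ _
  have hw0 : ∀ v ∈ Fintype.piFinset Ω, 0 ≤ ∏ i, p i (v i) := fun v hv => prod_nonneg fun j _ => hp j _ (Fintype.mem_piFinset.1 hv j)
  have hmean : ∀ x ∈ I, ∑ v ∈ Fintype.piFinset Ω, (∏ i, p i (v i)) * S x v ≤ N / L ^ V := by
    intro x hx
    rw [hS]
    exact Z_mean (R * D) 1 Ω p hp hp1 (N / L ^ V) (by positivity) (fun i G' hG' => hone i 1 le_rfl hK1 (R * D) (by
      calc R * D ≤ 2 * B1 * K * N := hRD2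
        _ = _ := by ring) G' hG') (G x) (hG1 x)
  have htot : ∑ v ∈ Fintype.piFinset Ω, (∏ i, p i (v i)) * ∑ x ∈ I, S x v ≤ I.card * (N / L ^ V) := by
    have e1 : ∑ v ∈ Fintype.piFinset Ω, (∏ i, p i (v i)) * ∑ x ∈ I, S x v = ∑ x ∈ I, ∑ v ∈ Fintype.piFinset Ω, (∏ i, p i (v i)) * S x v := by
      simp_rw [mul_sum]
      exact sum_comm
    rw [e1]
    refine (sum_le_sum hmean).trans ?_
    rw [sum_const, nsmul_eq_mul]
  have hIc : (I.card : ℝ) ≤ 4 * B1 * L ^ (4 * A + U + 1) := by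
    rw [hI, card_product, card_product, Nat.card_Icc, card_range, card_range, Nat.add_sub_cancel]
    push_cast
    calc (K : ℝ) * (K * R) ≤ L ^ A * (L ^ A * (4 * B1 * L ^ A * L ^ (U + 1))) := by
          gcongr
      _ = 4 * B1 * L ^ (3 * A + U + 1) := by
          rw [show 3 * A + U + 1 = A + A + A + (U + 1) by ring]
          simp only [pow_add]
          ring
      _ ≤ _ := by
          apply mul_le_mul_of_nonneg_left _ (by positivity)
          exact pow_le_pow_right₀ hL1 (by omega)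
  -- a vector with a small sum is good
  have hgood : ∀ v, ∑ x ∈ I, S x v ≤ N / L ^ (U + 1) → GpA 𝒜 U N K (B1 * K * N) v := by
    intro v hv q r a b hq1 hqK hr hab hb ε hε T0 hT0
    rw [← hLd]
    have hT0e : T0 = (Ioc a b).filter (fun x => x % q = r ∧ x ∈ 𝒜) := by
      ext x
      rw [hT0, mem_filter, mem_Ioc]
    have hpc := pattern_count T0 1 v ε hε
    simp only [one_mul] at hpc
    refine hpc.trans ?_
    have h5 : ∀ T : Finset (Fin s), |∑ x ∈ T0, ∏ i ∈ T, li (x + v i)| ≤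
        2 * (∑ m ∈ range R, |∑ x ∈ Icc 1 (R * D), G (q, r, m) x * ∏ i ∈ T, li (x + 1 * v i)| + D) := by
      intro T
      have h6 := intervalsR (fun x => if x % q = r ∧ x ∈ 𝒜 then ∏ i ∈ T, li (x + v i) else 0) (fun x => by
        split_ifs
        · rw [abs_prod]
          exact prod_le_one (fun _ _ => abs_nonneg _) fun _ _ => li_abs _
        · rw [abs_zero]; exact zero_le_one) D R hD1 a b hab (by rw [← hY] at hb; omega)
      rw [hT0e, sum_filter]
      refine h6.trans (le_of_eq ?_)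
      congr 2
      apply sum_congr rfl
      intro m hm
      rw [mem_range] at hm
      congr 1
      rw [hGd]
      simp only [ite_mul, one_mul, zero_mul]
      rw [← sum_filter, ← sum_filter]
      apply sum_congr _ (fun _ _ => rfl)
      ext y
      rw [mem_filter, mem_filter, mem_Icc, mem_Ioc]
      have e1 : (m + 1) * D ≤ R * D := Nat.mul_le_mul_right _ (by omega)
      constructor
      · intro h; exact ⟨⟨by omega, by omega⟩, h⟩
      · intro h; exact h.2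
    have h7 : (∑ T ∈ (univ : Finset (Fin s)).powerset.filter (fun T => T.Nonempty),
        |∑ x ∈ T0, ∏ i ∈ T, li (x + v i)|) / 2 ^ s ≤
        2 * (∑ m ∈ range R, Z 1 (R * D) (G (q, r, m)) v + D) := by
      rw [div_le_iff₀ (by positivity)]
      refine (sum_le_sum fun T _ => h5 T).trans ?_
      rw [← mul_sum, sum_add_distrib, sum_const, nsmul_eq_mul, sum_comm]
      have e1 : ∑ m ∈ range R, ∑ T ∈ (univ : Finset (Fin s)).powerset.filter (fun T => T.Nonempty),
          |∑ x ∈ Icc 1 (R * D), G (q, r, m) x * ∏ i ∈ T, li (x + 1 * v i)| = (∑ m ∈ range R, Z 1 (R * D) (G (q, r, m)) v) * 2 ^ s := by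
        rw [sum_mul]
        apply sum_congr rfl
        intro m _
        unfold Z
        rw [div_mul_cancel₀ _ (by positivity)]
      rw [e1]
      have e2 : ((((univ : Finset (Fin s)).powerset.filter (fun S => S.Nonempty)).card : ℕ) : ℝ) ≤ 2 ^ s := by
        have e3 : ((univ : Finset (Fin s)).powerset.filter (fun S => S.Nonempty)).card ≤ 2 ^ s := by
          refine (card_filter_le _ _).trans ?_
          rw [card_powerset, card_univ, Fintype.card_fin]
        exact_mod_cast e3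
      have e4 : ((((univ : Finset (Fin s)).powerset.filter (fun S => S.Nonempty)).card : ℕ) : ℝ) * D ≤ 2 ^ s * D :=
        mul_le_mul_of_nonneg_right e2 hD0.le
      linarith
    refine h7.trans ?_
    have h6 : ∑ m ∈ range R, Z 1 (R * D) (G (q, r, m)) v ≤ ∑ x ∈ I, S x v := by
      have e1 : ∑ m ∈ range R, Z 1 (R * D) (G (q, r, m)) v = ∑ x ∈ (range R).image (fun m => (q, r, m)), S x v := by
        rw [sum_image (fun a _ b _ h => by simpa using h), hS]
      rw [e1]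
      apply sum_le_sum_of_subset_of_nonneg
      · intro x hx
        rw [mem_image] at hx
        obtain ⟨m, hm, rfl⟩ := hx
        rw [hI, mem_product, mem_product, mem_Icc, mem_range]
        exact ⟨⟨hq1, hqK⟩, by simp only; omega, hm⟩
      · intro x _ _
        exact hSn x v
    have h8 : 2 * (N / L ^ (U + 1) + N / L ^ (U + 1)) ≤ N / L ^ U := by
      rw [pow_succ, le_div_iff₀ (by positivity)]
      have : 2 * (N / (L ^ U * L) + N / (L ^ U * L)) * L ^ U = 4 * N / L := by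
        field_simp
        norm_num
      rw [this, div_le_iff₀ hL0]
      nlinarith
    linarith [h6, hDle, hv]
  -- the inequality of Markov
  have hmark : ∑ v ∈ Fintype.piFinset Ω, (if GpA 𝒜 U N K (B1 * K * N) v then 0 else ∏ i, p i (v i)) ≤
      (∑ v ∈ Fintype.piFinset Ω, (∏ i, p i (v i)) * ∑ x ∈ I, S x v) * (L ^ (U + 1) / N) := by
    rw [sum_mul]
    apply sum_le_sum
    intro v hv
    have hs0 : 0 ≤ ∑ x ∈ I, S x v := sum_nonneg fun x _ => hSn x v
    have hp0 := hw0 v hv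
    split_ifs with hg
    · positivity
    · have h8 : N / L ^ (U + 1) ≤ ∑ x ∈ I, S x v := by
        by_contra hcon
        exact hg (hgood v (not_le.1 hcon).le)
      have h9 : 1 ≤ (∑ x ∈ I, S x v) * (L ^ (U + 1) / N) := by
        rw [div_le_iff₀ (by positivity)] at h8
        rw [← mul_div_assoc, le_div_iff₀ hN0, one_mul]
        exact h8
      calc ∏ i, p i (v i) = (∏ i, p i (v i)) * 1 := (mul_one _).symm
        _ ≤ (∏ i, p i (v i)) * ((∑ x ∈ I, S x v) * (L ^ (U + 1) / N)) := mul_le_mul_of_nonneg_left h9 hp0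
        _ = _ := by ring
  refine hmark.trans ?_
  calc (∑ v ∈ Fintype.piFinset Ω, (∏ i, p i (v i)) * ∑ x ∈ I, S x v) * (L ^ (U + 1) / N) ≤
      (4 * B1 * L ^ (4 * A + U + 1) * (N / L ^ V)) * (L ^ (U + 1) / N) := by
        apply mul_le_mul_of_nonneg_right _ (by positivity)
        exact htot.trans (mul_le_mul_of_nonneg_right hIc (by positivity))
    _ = 1 / L ^ U * (4 * B1 / L ^ 2) := by
        rw [hV, show 4 * A + 3 * U + 4 = (4 * A + U + 1) + (U + 1) + U + 2 by ring]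
        rw [pow_add L ((4 * A + U + 1) + (U + 1) + U), pow_add L ((4 * A + U + 1) + (U + 1)), pow_add L (4 * A + U + 1) (U + 1)]
        field_simp
    _ ≤ 1 / L ^ U * 1 := by
        apply mul_le_mul_of_nonneg_left _ (by positivity)
        rw [div_le_one (by positivity)]
        nlinarith
    _ = _ := mul_one _

/-- the uniform distribution on `{0, ..., B N}` -/
lemma uniform_lw (B W : ℕ) (hB : 1 ≤ B) : ∃ N₀ : ℕ, ∀ N, N₀ ≤ N →
    Lw B (W + 1) W N (range (B * N + 1)) (fun _ => 1 / ((B * N + 1 : ℕ) : ℝ)) := by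
  obtain ⟨n1, h1⟩ := ev_L' 1
  refine ⟨n1 + 3, fun N hN => ?_⟩
  have hL := h1 N (by omega)
  have hN0 : (0 : ℝ) < N := by exact_mod_cast (by omega : 0 < N)
  have hBN : (0 : ℝ) < ((B * N + 1 : ℕ) : ℝ) := by exact_mod_cast Nat.succ_pos _
  refine ⟨fun _ _ => by positivity, ?_, fun v hv => by rw [mem_range] at hv; omega, fun α hα' => ?_⟩
  · rw [sum_const, card_range, nsmul_eq_mul]
    field_simp
  · have hα : ∀ k : ℤ, Real.log N ^ (W + 1) / N < |α - k| := by
      intro k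
      unfold Mj at hα'
      push Not at hα'
      have e1 := hα' 1 le_rfl (by rw [Nat.cast_one]; exact one_le_pow₀ hL) k
      rw [Nat.cast_one, div_one] at e1
      exact e1
    obtain ⟨θ, hθ⟩ : ∃ θ : ℝ, θ = Real.log N ^ (W + 1) / N := ⟨_, rfl⟩
    have hθ0 : 0 < θ := by rw [hθ]; positivity
    rw [← hθ] at hα
    obtain ⟨y, hy⟩ : ∃ y, y = Int.fract α := ⟨_, rfl⟩
    have hy0 : θ ≤ y := by
      have := hα ⌊α⌋
      rw [hy, Int.fract]
      rw [abs_of_nonneg (by linarith [Int.floor_le α])] at this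
      exact this.le
    have hy1 : y ≤ 1 - θ := by
      have := hα (⌊α⌋ + 1)
      rw [hy, Int.fract]
      push_cast at this
      rw [abs_of_nonpos (by linarith [Int.lt_floor_add_one α])] at this
      linarith
    have e1 : ∑ v ∈ range (B * N + 1), (((1 / ((B * N + 1 : ℕ) : ℝ) : ℝ)) : ℂ) * ee ((v : ℝ) * α) =
        (((1 / ((B * N + 1 : ℕ) : ℝ) : ℝ)) : ℂ) * ∑ j ∈ range (B * N + 1), (ee α) ^ j := by
      rw [mul_sum]
      apply sum_congr rfl
      intro j _
      rw [ee_pow]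
    have hθ1 : θ ≤ 1 / 2 := by linarith
    have h4 : 4 * θ ≤ ‖1 - ee α‖ := by
      have h5 := dd_ge (hθ0.le.trans hy0) (by linarith : y ≤ 1)
      have h6 : dd α = dd y := by
        have h7 : α = y + (⌊α⌋ : ℤ) := by
          rw [hy, Int.fract]
          ring
        rw [h7, dd_add_int]
      have h8 : θ ≤ min y (1 - y) := le_min hy0 (by linarith)
      have h9 : dd α = ‖1 - ee α‖ := rfl
      rw [← h9, h6]
      linarith
    have h2 : ‖∑ j ∈ range (B * N + 1), (ee α) ^ j‖ ≤ 1 / θ := by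
      have h3 := geom_sum_mul (ee α) (B * N + 1)
      have h5 : ‖∑ j ∈ range (B * N + 1), (ee α) ^ j‖ * ‖1 - ee α‖ ≤ 2 := by
        rw [← norm_mul]
        have h6 : (∑ j ∈ range (B * N + 1), (ee α) ^ j) * (1 - ee α) = 1 - (ee α) ^ (B * N + 1) := by linear_combination -h3
        rw [h6]
        refine (norm_sub_le _ _).trans ?_
        rw [norm_one, norm_pow, norm_ee, one_pow]
        norm_num
      rw [le_div_iff₀ hθ0]
      nlinarith [norm_nonneg (∑ j ∈ range (B * N + 1), (ee α) ^ j)]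
    rw [e1, norm_mul, Complex.norm_real, Real.norm_of_nonneg (by positivity)]
    calc 1 / ((B * N + 1 : ℕ) : ℝ) * ‖∑ j ∈ range (B * N + 1), (ee α) ^ j‖
        ≤ 1 / N * (1 / θ) := by
          apply mul_le_mul _ h2 (norm_nonneg _) (by positivity)
          apply one_div_le_one_div_of_le hN0
          have : N ≤ B * N + 1 := by nlinarith
          exact_mod_cast this
      _ = 1 / Real.log N ^ (W + 1) := by
          rw [hθ]
          field_simp
      _ ≤ 1 / Real.log N ^ W := by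
          apply one_div_le_one_div_of_le (by positivity)
          exact pow_le_pow_right₀ hL (by omega)

/-- **few exceptions in boxes** -/
theorem few_patterns (A B U : ℕ) (hB : 1 ≤ B) (s : ℕ) (hs : 1 ≤ s) : ∃ N₀ : ℕ, ∀ N, N₀ ≤ N → ∀ (𝒜 : Set ℕ)
    (F : Finset (Fin s → ℕ)), (∀ v ∈ F, (∀ i, v i ≤ B * N) ∧ ¬ GpA 𝒜 U N ⌊Real.log N ^ A⌋₊ (B * N) v) →
      (F.card : ℝ) ≤ (2 * B : ℝ) ^ s * (N : ℝ) ^ s / Real.log N ^ U := by
  classical
  obtain ⟨W, hW⟩ : ∃ W, W = 2 * (4 * A + 3 * U + 4) + 2 * A + 1 := ⟨_, rfl⟩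
  obtain ⟨n1, h1⟩ := pattern_lawA A B B U hB hB (W + 1)
  obtain ⟨n2, h2⟩ := uniform_lw B W hB
  obtain ⟨n3, h3⟩ := ev_L' 1
  refine ⟨n1 + n2 + n3 + 1, fun N hN 𝒜 F hF => ?_⟩
  have hL := h3 N (by omega)
  have hN1 : (1 : ℝ) ≤ N := by exact_mod_cast (by omega : 1 ≤ N)
  have hBr : (1 : ℝ) ≤ B := by exact_mod_cast hB
  have hK1 : 1 ≤ ⌊Real.log N ^ A⌋₊ := Nat.le_floor (by rw [Nat.cast_one]; exact one_le_pow₀ hL)
  have h4 := h1 N (by omega) 𝒜 s (fun _ => range (B * N + 1)) (fun _ _ => 1 / ((B * N + 1 : ℕ) : ℝ)) (fun _ => by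
    rw [← hW]
    exact h2 N (by omega)) ⌊Real.log N ^ A⌋₊ hK1 (Nat.floor_le (by positivity))
  have hM0 : (0 : ℝ) < ((B * N + 1 : ℕ) : ℝ) := by exact_mod_cast Nat.succ_pos _
  have h5 : (F.card : ℝ) * (1 / ((B * N + 1 : ℕ) : ℝ)) ^ s ≤ 1 / Real.log N ^ U := by
    refine le_trans ?_ h4
    have hsub : F ⊆ Fintype.piFinset (fun _ : Fin s => range (B * N + 1)) := by
      intro v hv
      rw [Fintype.mem_piFinset]
      intro i
      rw [mem_range]
      have := (hF v hv).1 i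
      omega
    have h6 : ∑ v ∈ F, (1 / ((B * N + 1 : ℕ) : ℝ)) ^ s ≤ ∑ v ∈ F,
        (if GpA 𝒜 U N ⌊Real.log N ^ A⌋₊ (B * ⌊Real.log N ^ A⌋₊ * N) v then 0 else ∏ _i : Fin s, 1 / ((B * N + 1 : ℕ) : ℝ)) := by
      apply sum_le_sum
      intro v hv
      rw [if_neg, prod_const, card_univ, Fintype.card_fin]
      intro hg
      apply (hF v hv).2
      intro q r a b hq1 hqK hr hab hb
      refine hg q r a b hq1 hqK hr hab (hb.trans ?_)
      calc B * N = B * 1 * N := by ring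
        _ ≤ B * ⌊Real.log N ^ A⌋₊ * N := Nat.mul_le_mul_right _ (Nat.mul_le_mul_left _ hK1)
    rw [sum_const, nsmul_eq_mul] at h6
    refine h6.trans (sum_le_sum_of_subset_of_nonneg hsub fun v _ _ => ?_)
    split_ifs
    · exact le_rfl
    · positivity
  have h6 : ((B * N + 1 : ℕ) : ℝ) ≤ 2 * B * N := by
    push_cast
    nlinarith
  rw [one_div, inv_pow, ← div_eq_mul_inv, div_le_iff₀ (by positivity)] at h5
  calc (F.card : ℝ) ≤ 1 / Real.log N ^ U * ((B * N + 1 : ℕ) : ℝ) ^ s := h5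
    _ ≤ 1 / Real.log N ^ U * (2 * B * N : ℝ) ^ s := by
        apply mul_le_mul_of_nonneg_left _ (by positivity)
        exact pow_le_pow_left₀ hM0.le h6 s
    _ = _ := by
        rw [mul_pow]
        ring

end Pool.Agent.N220.CF.Li
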