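import Pool.Agent.N220.CF.L

/-! Campaign CL (helper220): countable families of properties of integers. -/

set_option autoImplicit false

open Filter Topology MeasureTheory Finset

namespace Pool.Agent.N220.CF

open Classical in
/-- **L5: one null set for a countable family of properties of integers.** For every `i` let at most `X / (log X)^U` integers
`|n| ≤ X` fail to have the property `P i`, for one `U ≥ 2` and all large `X`. (1) For almost all `α` in `R^k`, for all `i` and
`c`, for all but finitely many `q` with `|q α_j - p_j| ≤ c q^(-1/k)` (some integers `p_j`) both `q` and `-q` have the property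
`P i`. (2) For almost all real `ξ` and all `i` the same holds for all but finitely many of the denominators of the convergents
of the continued fraction of `ξ`. -/
theorem finitely_family {ι : Type*} [Countable ι] (P : ι → ℤ → Prop) {U : ℕ} (hU : 2 ≤ U)
    (hP : ∀ i, ∃ X₀ : ℕ, ∀ X : ℕ, X₀ ≤ X → (((Icc (-(X : ℤ)) X).filter (fun n => ¬ P i n)).card : ℝ) ≤ X / (Real.log X) ^ U) :
    (∀ k : ℕ, 1 ≤ k → ∀ᵐ α : Fin k → ℝ, ∀ (i : ι) (c : ℝ),
      {q : ℕ | Approx c (1 / k) α q ∧ ¬ (P i (q : ℤ) ∧ P i (-(q : ℤ)))}.Finite) ∧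
    ∀ᵐ ξ : ℝ, ∀ i : ι, ∀ᶠ n : ℕ in atTop, P i ((ξ.convergent n).den : ℤ) ∧ P i (-((ξ.convergent n).den : ℤ)) := by
  have h : ∀ i, FinitelyMet {q : ℕ | ¬ (P i (q : ℤ) ∧ P i (-(q : ℤ)))} := fun i => finitely_int (P i) hU (hP i)
  refine ⟨fun k hk => ae_all_iff.2 fun i => (h i).1 k hk, ae_all_iff.2 fun i => ?_⟩
  filter_upwards [(h i).2] with ξ hξ
  filter_upwards [hξ] with n hn
  exact not_not.1 hn

end Pool.Agent.N220.CF
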