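import Pool.Agent.N220.CF.H2

/-! Campaign CL (helper220): Hypothesis H near linear forms in good approximations: the statements used on the pages. The
definitions `omega`, `eulerProd`, `count`, `Admissible` and the lemmas on them are those of the starting file
`MP_51e72e_nt.ThinFamilySystems`. -/

set_option autoImplicit false

open Filter Topology MeasureTheory Finset

namespace Pool.Agent.N220.CF

/-- The number of residue classes of `n` modulo `p` with `∏ i, (a i * n + b i) ≡ 0 (mod p)`. -/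
def omega {m : ℕ} (a b : Fin m → ℤ) (p : ℕ) : ℕ :=
  ((range p).filter (fun n : ℕ => (p : ℤ) ∣ ∏ i, (a i * (n : ℤ) + b i))).card

/-- The product over the primes `p ≤ z` of the factors `(1 - ω(p) / p) / (1 - 1 / p) ^ m` of the singular series. -/
noncomputable def eulerProd {m : ℕ} (a b : Fin m → ℤ) (z : ℕ) : ℝ :=
  ∏ p ∈ (Icc 1 z).filter Nat.Prime, (1 - (omega a b p : ℝ) / p) / (1 - 1 / (p : ℝ)) ^ m

/-- The number of `n` with `y₁ < n ≤ y₂` such that `|a i * n + b i|` is prime for every `i`. -/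
def count {m : ℕ} (a b : Fin m → ℤ) (y₁ y₂ : ℕ) : ℕ :=
  ((Ioc y₁ y₂).filter (fun n : ℕ => ∀ i, (a i * (n : ℤ) + b i).natAbs.Prime)).card

/-- The polynomials `a i * x + b i` are not constant, no two of them are equal up to sign, and their product has no fixed prime
divisor. -/
def Admissible {m : ℕ} (a b : Fin m → ℤ) : Prop :=
  (∀ i, a i ≠ 0) ∧
  (∀ i j, i ≠ j → ¬ (a i = a j ∧ b i = b j) ∧ ¬ (a i = -a j ∧ b i = -b j)) ∧
  (∀ p : ℕ, p.Prime → ∃ n : ℤ, ¬ (p : ℤ) ∣ ∏ i, (a i * n + b i))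

/-- **The law of Hardy and Littlewood at the scale `q`** for the system of the polynomials `a i * x + b i`, `i < m`: the singular
series converges to a positive number `S`, and for all `y₁ ≤ y₂ ≤ B q` with `y₂ - y₁ ≥ q / log ^ A q` the number of the `n` with
`y₁ < n ≤ y₂` for which all `|a i * n + b i|` are primes is `S (y₂ - y₁) / log ^ m q`, up to a relative error of at most `ε`. -/
def HL (ε : ℝ) (A B q : ℕ) {m : ℕ} (a b : Fin m → ℤ) : Prop :=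
  ∃ S : ℝ, 0 < S ∧ Tendsto (eulerProd a b) atTop (𝓝 S) ∧
    ∀ y₁ y₂ : ℕ, y₁ ≤ y₂ → y₂ ≤ B * q → (q : ℝ) / Real.log q ^ A ≤ (y₂ : ℝ) - y₁ →
      |(count a b y₁ y₂ : ℝ) - S * ((y₂ : ℝ) - y₁) / Real.log q ^ m| ≤ ε * (S * ((y₂ : ℝ) - y₁) / Real.log q ^ m)

open Pool.Agent.TH935.TF

lemma dvd_prod_iff {m : ℕ} (a b : Fin m → ℤ) (p : ℕ) (hp : p.Prime) (n : ℤ) :
    (p : ℤ) ∣ ∏ i, (a i * n + b i) ↔ ∃ i, (p : ℤ) ∣ a i * n + b i := by
  have h := (Nat.prime_iff_prime_int.1 hp).dvd_finsetProd_iff (S := univ) (fun i => a i * n + b i)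
  simpa using h

lemma omega_eq {m : ℕ} (a b : Fin m → ℤ) (p : ℕ) (hp : p.Prime) : omega a b p = om a b p := by
  unfold omega om
  congr 1
  apply filter_congr
  intro n _
  exact dvd_prod_iff a b p hp n

lemma euler_eq {m : ℕ} (a b : Fin m → ℤ) : eulerProd a b = fun z => Gz (om a b) m z := by
  funext z
  unfold eulerProd Gz Fq Pool.Agent.H373R2.T7.pz
  apply prod_congr rfl
  intro p hp
  rw [omega_eq a b p (mem_filter.1 hp).2]

lemma adm_of {m : ℕ} (a b : Fin m → ℤ) (h : Admissible a b) : Adm a b := by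
  intro p hp
  obtain ⟨n, hn⟩ := h.2.2 p hp
  refine ⟨n, fun i hi => hn ?_⟩
  exact (dvd_prod_iff a b p hp n).2 ⟨i, hi⟩

/-- from the property of the library to the law of Hardy and Littlewood -/
lemma hl_of {K m : ℕ} {sA sB : (Fin K → ℤ) → (Fin m → ℤ)} {ε : ℝ} {A B D q : ℕ} {β : Fin K → ℤ} (h : HW sA sB ε A B D q β)
    (α : Fin K → ℤ) (hα : ∀ i, α i ≠ 0) (hαD : ∀ i, |(α i : ℝ)| ≤ Real.log q ^ D) (hadm : Admissible (sA α) (sB β)) :
    HL ε A B q (sA α) (sB β) := by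
  obtain ⟨S, hS0, hSt, hS⟩ := h α hα (fun i => by rw [Nat.cast_natAbs, Int.cast_abs]; exact hαD i) (adm_of _ _ hadm) hadm.2.1
  exact ⟨S, hS0, by rw [euler_eq]; exact hSt, hS⟩

lemma HL.mono {ε ε' : ℝ} (h : ε ≤ ε') {A B q m : ℕ} {a b : Fin m → ℤ} (hq : HL ε A B q a b) : HL ε' A B q a b := by
  obtain ⟨S, hS0, hSt, hS⟩ := hq
  refine ⟨S, hS0, hSt, fun y₁ y₂ h1 h2 h3 => (hS y₁ y₂ h1 h2 h3).trans (mul_le_mul_of_nonneg_right h ?_)⟩
  have h4 : (0 : ℝ) ≤ (y₂ : ℝ) - y₁ := by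
    have : (y₁ : ℝ) ≤ y₂ := by exact_mod_cast h1
    linarith
  have h5 : 0 ≤ Real.log (q : ℝ) := Real.log_natCast_nonneg q
  positivity

/-- The Hardy-Littlewood law for `x` and `a x + y`, for all integers `y` at a distance of at most `log ^ W q` from `κ q + c` and all
slopes `|a| ≤ log ^ D q` for which this pair of polynomials is admissible. -/
def PairLaw (κ c : ℤ) (A B D W : ℕ) (ε : ℝ) (q : ℕ) : Prop :=
  ∀ y : ℤ, |(y : ℝ) - (κ * q + c)| ≤ Real.log q ^ W → ∀ a : ℤ, |(a : ℝ)| ≤ Real.log q ^ D → Admissible ![1, a] ![0, y] →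
    HL ε A B q ![1, a] ![0, y]

/-- The Hardy-Littlewood law for `x`, `a_0 x + b_0`, ..., `a_k x + b_k`, for all vectors `b` of integers at a distance (in each
coordinate) of at most `log ^ W q` from `M (q, p_1, ..., p_k) + c` and all slopes `|a_i| ≤ log ^ D q` for which the system is
admissible. Here `t = (p, q)`. -/
def SystemLaw {k : ℕ} (M : Matrix (Fin (k + 1)) (Fin (k + 1)) ℤ) (c : Fin (k + 1) → ℤ) (A B D W : ℕ) (ε : ℝ)
    (t : (Fin k → ℤ) × ℕ) : Prop :=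
  ∀ b : Fin (k + 1) → ℤ, (∀ i, |(b i : ℝ) - (((M.mulVec (vec t) i + c i : ℤ)) : ℝ)| ≤ Real.log t.2 ^ W) →
    ∀ a : Fin (k + 1) → ℤ, (∀ i, |(a i : ℝ)| ≤ Real.log t.2 ^ D) → Admissible (Fin.cons 1 a : Fin (k + 2) → ℤ) (Fin.cons 0 b) →
      HL ε A B t.2 (Fin.cons 1 a : Fin (k + 2) → ℤ) (Fin.cons 0 b)

lemma exists_eps {ε : ℝ} (h : 0 < ε) : ∃ j : ℕ, 1 / ((j : ℝ) + 1) ≤ ε := by
  obtain ⟨j, hj⟩ := exists_nat_one_div_lt h
  exact ⟨j, hj.le⟩

lemma cons_pair (a : ℤ) : (![1, a] : Fin 2 → ℤ) = consA (fun _ : Fin 1 => a) := by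
  funext i
  refine Fin.cases rfl (fun i => ?_) i
  rw [consA_succ]
  have : i = 0 := Subsingleton.elim _ _
  subst this
  rfl

lemma cons_pair' (y : ℤ) : (![0, y] : Fin 2 → ℤ) = consB (fun _ : Fin 1 => y) := by
  funext i
  refine Fin.cases rfl (fun i => ?_) i
  rw [consB_succ]
  have : i = 0 := Subsingleton.elim _ _
  subst this
  rfl

/-- **Q1: prime pairs near the denominators.** -/
theorem pairs_all :
    (∀ n : ℕ, 1 ≤ n → ∀ᵐ α : Fin n → ℝ, ∀ (κ c : ℤ) (A B D W : ℕ) (ε : ℝ), κ ≠ 0 → 0 < ε → ∀ b : ℝ,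
      {q : ℕ | Approx b (1 / n) α q ∧ ¬ PairLaw κ c A B D W ε q}.Finite) ∧
    ∀ᵐ ξ : ℝ, ∀ (κ c : ℤ) (A B D W : ℕ) (ε : ℝ), κ ≠ 0 → 0 < ε → ∀ᶠ n : ℕ in atTop, PairLaw κ c A B D W ε (ξ.convergent n).den := by
  have h := finitely_iff_all (ι := {x : ℤ × ℤ × ℕ × ℕ × ℕ × ℕ × ℕ // x.1 ≠ 0})
    (W := fun x => {q : ℕ | ¬ PairLaw x.1.1 x.1.2.1 x.1.2.2.1 x.1.2.2.2.1 x.1.2.2.2.2.1 x.1.2.2.2.2.2.1
      (1 / ((x.1.2.2.2.2.2.2 : ℝ) + 1)) q}) (by
      rintro ⟨⟨κ, c, A, B, D, W, j⟩, hκ⟩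
      have hj : (0 : ℝ) < 1 / ((j : ℝ) + 1) := by positivity
      refine (sys_den (sys_lam 1 le_rfl) κ c hκ A B D W (1 / ((j : ℝ) + 1)) hj).subset ?_
      intro q _ hq
      by_contra hcon
      apply hq
      intro y hy a ha hadm
      by_contra hHL
      apply hcon
      refine ⟨y, by push_cast; exact hy, fun hw => hHL ?_⟩
      rw [cons_pair, cons_pair'] at hadm ⊢
      exact hl_of hw (fun _ => a) (fun _ => hadm.1 1) (fun _ => ha) hadm)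
  refine ⟨fun n hn => ?_, ?_⟩
  · filter_upwards [h.1 n hn] with α hα κ c A B D W ε hκ he b
    obtain ⟨j, hj⟩ := exists_eps he
    refine (hα ⟨⟨κ, c, A, B, D, W, j⟩, hκ⟩ b).subset ?_
    rintro q ⟨h1, h2⟩
    exact ⟨h1, fun h3 => h2 fun y hy a ha hadm => (h3 y hy a ha hadm).mono hj⟩
  · filter_upwards [h.2] with ξ hξ κ c A B D W ε hκ he
    obtain ⟨j, hj⟩ := exists_eps he
    filter_upwards [hξ ⟨⟨κ, c, A, B, D, W, j⟩, hκ⟩] with n hn
    have h3 := not_not.1 hn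
    exact fun y hy a ha hadm => (h3 y hy a ha hadm).mono hj

lemma systems_met {k : ℕ} (hk : 1 ≤ k) (M : Matrix (Fin (k + 1)) (Fin (k + 1)) ℤ) (hM : M.det ≠ 0) (c : Fin (k + 1) → ℤ)
    (A B D W : ℕ) (ε : ℝ) (hε : 0 < ε) : VectorsFinitelyMet k {t | ¬ SystemLaw M c A B D W ε t} := by
  refine (sys_vec (sys_lam (k + 1) (by omega)) hk M hM c A B D W ε hε).subset ?_
  intro t _ ht
  by_contra hcon
  apply ht
  intro b hb a ha hadm
  by_contra hHL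
  apply hcon
  refine ⟨b, fun i => by
    have := hb i
    push_cast at this ⊢
    exact this, fun hw => hHL ?_⟩
  exact hl_of hw a (fun i => by
    have := hadm.1 i.succ
    rwa [Fin.cons_succ] at this) ha hadm

/-- **Q2: systems near linear forms in good approximations.** -/
theorem systems_all (k : ℕ) (hk : 1 ≤ k) : ∀ᵐ α : Fin k → ℝ, ∀ (M : Matrix (Fin (k + 1)) (Fin (k + 1)) ℤ) (c : Fin (k + 1) → ℤ)
    (A B D W : ℕ) (ε : ℝ), M.det ≠ 0 → 0 < ε → ∀ b : ℝ, {t | Near b (1 / k) α t ∧ ¬ SystemLaw M c A B D W ε t}.Finite := by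
  haveI : Countable (Matrix (Fin (k + 1)) (Fin (k + 1)) ℤ) := inferInstanceAs (Countable (Fin (k + 1) → Fin (k + 1) → ℤ))
  have h : ∀ᵐ α : Fin k → ℝ, ∀ x : {x : Matrix (Fin (k + 1)) (Fin (k + 1)) ℤ × (Fin (k + 1) → ℤ) × ℕ × ℕ × ℕ × ℕ × ℕ // x.1.det ≠ 0},
      ∀ b : ℝ, {t | t ∈ {t | ¬ SystemLaw x.1.1 x.1.2.1 x.1.2.2.1 x.1.2.2.2.1 x.1.2.2.2.2.1 x.1.2.2.2.2.2.1
        (1 / ((x.1.2.2.2.2.2.2 : ℝ) + 1)) t} ∧ Near b (1 / k) α t}.Finite :=
    ae_all_iff.2 fun x => systems_met hk x.1.1 x.2 x.1.2.1 _ _ _ _ _ (by positivity)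
  filter_upwards [h] with α hα M c A B D W ε hM he b
  obtain ⟨j, hj⟩ := exists_eps he
  refine (hα ⟨⟨M, c, A, B, D, W, j⟩, hM⟩ b).subset ?_
  rintro t ⟨h1, h2⟩
  exact ⟨fun h3 => h2 fun y hy a ha hadm => (h3 y hy a ha hadm).mono hj, h1⟩

/-- **Q3: systems near linear forms in the convergents `(p_n, q_n)`.** -/
theorem systems_conv : ∀ᵐ ξ : ℝ, ∀ (M : Matrix (Fin 2) (Fin 2) ℤ) (c : Fin 2 → ℤ) (A B D W : ℕ) (ε : ℝ), M.det ≠ 0 → 0 < ε →
    ∀ᶠ n : ℕ in atTop, SystemLaw M c A B D W ε (conv ξ n) := by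
  haveI : Countable (Matrix (Fin 2) (Fin 2) ℤ) := inferInstanceAs (Countable (Fin 2 → Fin 2 → ℤ))
  have h : ∀ᵐ ξ : ℝ, ∀ x : {x : Matrix (Fin 2) (Fin 2) ℤ × (Fin 2 → ℤ) × ℕ × ℕ × ℕ × ℕ × ℕ // x.1.det ≠ 0}, ∀ᶠ n : ℕ in atTop,
      conv ξ n ∉ {t | ¬ SystemLaw x.1.1 x.1.2.1 x.1.2.2.1 x.1.2.2.2.1 x.1.2.2.2.2.1 x.1.2.2.2.2.2.1
        (1 / ((x.1.2.2.2.2.2.2 : ℝ) + 1)) t} :=
    ae_all_iff.2 fun x => conv_not_mem (systems_met le_rfl x.1.1 x.2 x.1.2.1 _ _ _ _ _ (by positivity))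
  filter_upwards [h] with ξ hξ M c A B D W ε hM he
  obtain ⟨j, hj⟩ := exists_eps he
  filter_upwards [hξ ⟨⟨M, c, A, B, D, W, j⟩, hM⟩] with n hn
  have h3 := not_not.1 hn
  exact fun y hy a ha hadm => (h3 y hy a ha hadm).mono hj

end Pool.Agent.N220.CF
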