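import Pool.Agent.N220.CF.Q

/-! Campaign CL (helper220): Hypothesis H near linear forms in good approximations, fixed slopes. -/

set_option autoImplicit false

open Filter Topology MeasureTheory Finset

namespace Pool.Agent.N220.CF

/-- The Hardy-Littlewood law for `x` and `a x + y`, for all integers `y` at a distance of at most `log ^ W q` from `κ q + c` for
which this pair of polynomials is admissible. -/
def FixedPair (a κ c : ℤ) (A B W : ℕ) (ε : ℝ) (q : ℕ) : Prop :=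
  ∀ y : ℤ, |(y : ℝ) - (κ * q + c)| ≤ Real.log q ^ W → Admissible ![1, a] ![0, y] → HL ε A B q ![1, a] ![0, y]

/-- The Hardy-Littlewood law for `x`, `a_0 x + b_0`, ..., `a_k x + b_k`, for all vectors `b` of integers at a distance (in each
coordinate) of at most `log ^ W q` from `M (q, p_1, ..., p_k) + c` for which the system is admissible. Here `t = (p, q)`. -/
def FixedLaw {k : ℕ} (a : Fin (k + 1) → ℤ) (M : Matrix (Fin (k + 1)) (Fin (k + 1)) ℤ) (c : Fin (k + 1) → ℤ) (A B W : ℕ) (ε : ℝ)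
    (t : (Fin k → ℤ) × ℕ) : Prop :=
  ∀ b : Fin (k + 1) → ℤ, (∀ i, |(b i : ℝ) - (((M.mulVec (vec t) i + c i : ℤ)) : ℝ)| ≤ Real.log t.2 ^ W) →
    Admissible (Fin.cons 1 a : Fin (k + 2) → ℤ) (Fin.cons 0 b) →
      HL ε A B t.2 (Fin.cons 1 a : Fin (k + 2) → ℤ) (Fin.cons 0 b)

lemma log_large (C : ℝ) : ∃ q₀ : ℕ, ∀ q : ℕ, q₀ ≤ q → C ≤ Real.log q ^ 1 := by
  obtain ⟨q₀, h⟩ := Pool.Agent.H373R2.T7.ev_L' C
  exact ⟨q₀, fun q hq => by rw [pow_one]; exact h q hq⟩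

/-- **Q4: prime pairs near the denominators, fixed slopes.** -/
theorem pairs_fixed :
    (∀ n : ℕ, 1 ≤ n → ∀ᵐ α : Fin n → ℝ, ∀ (a κ c : ℤ) (A B W : ℕ) (ε : ℝ), κ ≠ 0 → 0 < ε → ∀ b : ℝ,
      {q : ℕ | Approx b (1 / n) α q ∧ ¬ FixedPair a κ c A B W ε q}.Finite) ∧
    ∀ᵐ ξ : ℝ, ∀ (a κ c : ℤ) (A B W : ℕ) (ε : ℝ), κ ≠ 0 → 0 < ε → ∀ᶠ n : ℕ in atTop, FixedPair a κ c A B W ε (ξ.convergent n).den := by
  refine ⟨fun n hn => ?_, ?_⟩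
  · filter_upwards [pairs_all.1 n hn] with α hα a κ c A B W ε hκ he b
    obtain ⟨q₀, h0⟩ := log_large |(a : ℝ)|
    refine ((hα κ c A B 1 W ε hκ he b).union (Set.finite_lt_nat q₀)).subset ?_
    rintro q ⟨h1, h2⟩
    rcases lt_or_ge q q₀ with h3 | h3
    · exact Or.inr h3
    · exact Or.inl ⟨h1, fun h4 => h2 fun y hy hadm => h4 y hy a (h0 q h3) hadm⟩
  · have hirr : ∀ᵐ ξ : ℝ, ξ ∉ Set.range ((↑) : ℚ → ℝ) := (Set.countable_range ((↑) : ℚ → ℝ)).ae_notMem volume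
    filter_upwards [pairs_all.2, hirr] with ξ hξ hi a κ c A B W ε hκ he
    obtain ⟨q₀, h0⟩ := log_large |(a : ℝ)|
    filter_upwards [hξ κ c A B 1 W ε hκ he, (convergent_approx (ξ := ξ) hi).2.eventually (eventually_ge_atTop q₀)] with n h4 h5
    exact fun y hy hadm => h4 y hy a (h0 _ h5) hadm

/-- **Q5: systems near linear forms in good approximations, fixed slopes.** -/
theorem systems_fixed (k : ℕ) (hk : 1 ≤ k) : ∀ᵐ α : Fin k → ℝ, ∀ (a : Fin (k + 1) → ℤ) (M : Matrix (Fin (k + 1)) (Fin (k + 1)) ℤ)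
    (c : Fin (k + 1) → ℤ) (A B W : ℕ) (ε : ℝ), M.det ≠ 0 → 0 < ε → ∀ b : ℝ,
      {t | Near b (1 / k) α t ∧ ¬ FixedLaw a M c A B W ε t}.Finite := by
  filter_upwards [systems_all k hk] with α hα a M c A B W ε hM he b
  obtain ⟨q₀, h0⟩ := log_large (∑ i, |(a i : ℝ)|)
  refine ((hα M c A B 1 W ε hM he b).union (near_small_finite α b (1 / k) q₀)).subset ?_
  rintro t ⟨h1, h2⟩
  rcases lt_or_ge t.2 q₀ with h3 | h3
  · exact Or.inr ⟨h3, h1⟩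
  · exact Or.inl ⟨h1, fun h4 => h2 fun y hy hadm => h4 y hy a (fun i =>
      (Finset.single_le_sum (f := fun i => |(a i : ℝ)|) (fun i _ => abs_nonneg _) (mem_univ i)).trans (h0 _ h3)) hadm⟩

/-- **Q6: two further forms, at the convergents.** The Hardy-Littlewood law for `x`, `a₁ x + y`, `a₂ x + z`, for all integers `y`
and `z` at a distance of at most `log ^ W q` from `κ₁ q + l₁ p + c₁` and `κ₂ q + l₂ p + c₂`. -/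
def TripleLaw (a₁ a₂ κ₁ l₁ c₁ κ₂ l₂ c₂ : ℤ) (A B W : ℕ) (ε : ℝ) (p : ℤ) (q : ℕ) : Prop :=
  ∀ y z : ℤ, |(y : ℝ) - (κ₁ * q + l₁ * p + c₁)| ≤ Real.log q ^ W → |(z : ℝ) - (κ₂ * q + l₂ * p + c₂)| ≤ Real.log q ^ W →
    Admissible ![1, a₁, a₂] ![0, y, z] → HL ε A B q ![1, a₁, a₂] ![0, y, z]

lemma triple_of (a₁ a₂ κ₁ l₁ c₁ κ₂ l₂ c₂ : ℤ) (A B W : ℕ) (ε : ℝ) (t : (Fin 1 → ℤ) × ℕ)
    (h : FixedLaw ![a₁, a₂] !![κ₁, l₁; κ₂, l₂] ![c₁, c₂] A B W ε t) : TripleLaw a₁ a₂ κ₁ l₁ c₁ κ₂ l₂ c₂ A B W ε (t.1 0) t.2 := by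
  intro y z hy hz hadm
  have e0 : (!![κ₁, l₁; κ₂, l₂].mulVec (vec t)) 0 = κ₁ * (t.2 : ℤ) + l₁ * t.1 0 := by
    have h0 : (!![κ₁, l₁; κ₂, l₂].mulVec (vec t)) 0 = κ₁ * vec t 0 + l₁ * vec t 1 := by
      simp [Matrix.mulVec, dotProduct, Fin.sum_univ_two]
    rw [h0]
    rfl
  have e1 : (!![κ₁, l₁; κ₂, l₂].mulVec (vec t)) 1 = κ₂ * (t.2 : ℤ) + l₂ * t.1 0 := by
    have h0 : (!![κ₁, l₁; κ₂, l₂].mulVec (vec t)) 1 = κ₂ * vec t 0 + l₂ * vec t 1 := by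
      simp [Matrix.mulVec, dotProduct, Fin.sum_univ_two]
    rw [h0]
    rfl
  refine h ![y, z] ?_ hadm
  rw [Fin.forall_fin_two]
  constructor
  · rw [e0]
    push_cast
    exact hy
  · rw [e1]
    push_cast
    exact hz

/-- **Q7: triples at good approximations of one number, and at the convergents.** -/
theorem triples_all :
    (∀ᵐ ξ : ℝ, ∀ (a₁ a₂ κ₁ l₁ c₁ κ₂ l₂ c₂ : ℤ) (A B W : ℕ) (ε : ℝ), κ₁ * l₂ - l₁ * κ₂ ≠ 0 → 0 < ε → ∀ b : ℝ,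
      {t : ℤ × ℕ | 1 ≤ t.2 ∧ |(t.2 : ℝ) * ξ - t.1| ≤ b / t.2 ∧ ¬ TripleLaw a₁ a₂ κ₁ l₁ c₁ κ₂ l₂ c₂ A B W ε t.1 t.2}.Finite) ∧
    ∀ᵐ ξ : ℝ, ∀ (a₁ a₂ κ₁ l₁ c₁ κ₂ l₂ c₂ : ℤ) (A B W : ℕ) (ε : ℝ), κ₁ * l₂ - l₁ * κ₂ ≠ 0 → 0 < ε →
      ∀ᶠ n : ℕ in atTop, TripleLaw a₁ a₂ κ₁ l₁ c₁ κ₂ l₂ c₂ A B W ε (ξ.convergent n).num (ξ.convergent n).den := by
  have h := (volume_preserving_funUnique (Fin 1) ℝ).symm.quasiMeasurePreserving.ae (systems_fixed 1 le_rfl)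
  have key : ∀ᵐ ξ : ℝ, ∀ (a₁ a₂ κ₁ l₁ c₁ κ₂ l₂ c₂ : ℤ) (A B W : ℕ) (ε : ℝ), κ₁ * l₂ - l₁ * κ₂ ≠ 0 → 0 < ε → ∀ b : ℝ,
      {t : ℤ × ℕ | 1 ≤ t.2 ∧ |(t.2 : ℝ) * ξ - t.1| ≤ b / t.2 ∧ ¬ TripleLaw a₁ a₂ κ₁ l₁ c₁ κ₂ l₂ c₂ A B W ε t.1 t.2}.Finite := by
    filter_upwards [h] with ξ hξ a₁ a₂ κ₁ l₁ c₁ κ₂ l₂ c₂ A B W ε hdet he b
    have h1 := hξ ![a₁, a₂] !![κ₁, l₁; κ₂, l₂] ![c₁, c₂] A B W ε (by rw [Matrix.det_fin_two_of]; exact hdet) he b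
    refine (h1.image (fun t => (t.1 0, t.2))).subset ?_
    rintro ⟨p, q⟩ ⟨h2, h3, h4⟩
    refine ⟨(fun _ => p, q), ⟨⟨h2, fun _ => ?_⟩, fun h5 => h4 (triple_of _ _ _ _ _ _ _ _ A B W ε (fun _ => p, q) h5)⟩, rfl⟩
    simp only at h2 h3 ⊢
    rw [Nat.cast_one, div_one, Real.rpow_neg_one, ← div_eq_mul_inv]
    exact h3
  refine ⟨key, ?_⟩
  have hirr : ∀ᵐ ξ : ℝ, ξ ∉ Set.range ((↑) : ℚ → ℝ) := (Set.countable_range ((↑) : ℚ → ℝ)).ae_notMem volume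
  filter_upwards [key, hirr] with ξ hξ hi a₁ a₂ κ₁ l₁ c₁ κ₂ l₂ c₂ A B W ε hdet he
  have h1 := hξ a₁ a₂ κ₁ l₁ c₁ κ₂ l₂ c₂ A B W ε hdet he 1
  obtain ⟨b, hb⟩ := (h1.image Prod.snd).bddAbove
  filter_upwards [(convergent_approx (ξ := ξ) hi).2.eventually (eventually_gt_atTop b)] with n hn
  by_contra hcon
  have h2 := conv_near (ξ := ξ) hi n
  have h3 := h2.2 0
  unfold conv at h2 h3
  simp only at h3
  rw [Nat.cast_one, div_one, Real.rpow_neg_one, ← div_eq_mul_inv] at h3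
  have h4 := hb (Set.mem_image_of_mem Prod.snd (show ((ξ.convergent n).num, (ξ.convergent n).den) ∈ _ from ⟨h2.1, h3, hcon⟩))
  simp only at h4
  omega

end Pool.Agent.N220.CF
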