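import Pool.Agent.N220.CF.Q2

/-! Campaign CL (helper220): chains of linear iterates with defects near linear forms in good approximations. -/

set_option autoImplicit false

open Filter Topology MeasureTheory Finset

namespace Pool.Agent.N220.CF

/-- The chain `t_0 = n`, `t_(i+1) = a_i t_i + h_i`. -/
def term (a h : ℕ → ℤ) (n : ℤ) : ℕ → ℤ
  | 0 => n
  | i + 1 => a i * term a h n i + h i

/-- The product `a_0 a_1 ... a_(i-1)`, the leading coefficient of `t_i` as a polynomial in `n`. -/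
def lead (a : ℕ → ℤ) (i : ℕ) : ℤ := ∏ j ∈ range i, a j

/-- `t_i` is the polynomial `lead a i * n + term a h 0 i` in `n`. -/
lemma term_eq (a h : ℕ → ℤ) (n : ℤ) (i : ℕ) : term a h n i = lead a i * n + term a h 0 i := by
  induction i with
  | zero => simp [term, lead]
  | succ i ih =>
    rw [term, term, ih]
    unfold lead
    rw [prod_range_succ]
    ring

/-- the matrix of the constant terms -/
def chainM (k : ℕ) (a : ℕ → ℤ) : Matrix (Fin (k + 1)) (Fin (k + 1)) ℤ :=
  fun i j => if j ≤ i then ∏ l ∈ Ioc (j : ℕ) i, a l else 0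

lemma chainM_det (k : ℕ) (a : ℕ → ℤ) : (chainM k a).det = 1 := by
  rw [Matrix.det_of_isLowerTriangular]
  · apply prod_eq_one
    intro i _
    simp [chainM]
  · intro i j hij
    simp only [chainM]
    rw [if_neg]
    simpa using hij

lemma term_sum (a h : ℕ → ℤ) (i : ℕ) : term a h 0 (i + 1) = ∑ j ∈ range (i + 1), (∏ l ∈ Ioc j i, a l) * h j := by
  induction i with
  | zero => simp [term]
  | succ i ih =>
    rw [term, ih, sum_range_succ _ (i + 1), mul_sum]
    simp only [Ioc_self, prod_empty, one_mul]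
    congr 1
    apply sum_congr rfl
    intro j hj
    rw [mem_range] at hj
    have e : ∏ l ∈ Ioc j (i + 1), a l = (∏ l ∈ Ioc j i, a l) * a (i + 1) := by
      rw [← Finset.insert_Ioc_right_eq_Ioc_add_one (by omega), prod_insert (by simp)]
      ring
    rw [e]
    ring

lemma term_mat (k : ℕ) (a h : ℕ → ℤ) (i : Fin (k + 1)) :
    term a h 0 (i + 1) = (chainM k a).mulVec (fun j : Fin (k + 1) => h j) i := by
  rw [term_sum]
  simp only [Matrix.mulVec, dotProduct, chainM]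
  have e0 : (∑ j : Fin (k + 1), (if j ≤ i then ∏ l ∈ Ioc (j : ℕ) i, a l else 0) * h j) =
      ∑ j : Fin (k + 1), (fun j : ℕ => (if j ≤ (i : ℕ) then ∏ l ∈ Ioc j (i : ℕ), a l else 0) * h j) j := by
    apply sum_congr rfl
    intro j _
    simp only [Fin.le_def]
  rw [e0, Fin.sum_univ_eq_sum_range (fun j => (if j ≤ (i : ℕ) then ∏ l ∈ Ioc j (i : ℕ), a l else 0) * h j) (k + 1)]
  rw [← sum_subset (range_subset_range.2 (show (i : ℕ) + 1 ≤ k + 1 by omega))]
  · apply sum_congr rfl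
    intro j hj
    rw [mem_range] at hj
    rw [if_pos (by omega)]
  · intro j _ hj
    rw [mem_range] at hj
    rw [if_neg (by omega), zero_mul]

/-- The Hardy-Littlewood law for all chains `t_0 = n`, `t_(i+1) = a_i t_i + h_i`, `i ≤ k`, with defects `h_i` at a distance of at
most `log ^ W q` from the coordinates of `M (q, p_1, ..., p_k) + c`. Here `t = (p, q)`. -/
def ChainLaw {k : ℕ} (a : ℕ → ℤ) (M : Matrix (Fin (k + 1)) (Fin (k + 1)) ℤ) (c : Fin (k + 1) → ℤ) (A B W : ℕ) (ε : ℝ)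
    (t : (Fin k → ℤ) × ℕ) : Prop :=
  ∀ h : ℕ → ℤ, (∀ i : Fin (k + 1), |(h i : ℝ) - (((M.mulVec (vec t) i + c i : ℤ)) : ℝ)| ≤ Real.log t.2 ^ W) →
    Admissible (fun i : Fin (k + 2) => lead a i) (fun i => term a h 0 i) →
      HL ε A B t.2 (fun i : Fin (k + 2) => lead a i) (fun i => term a h 0 i)

lemma chain_of {k : ℕ} (a : ℕ → ℤ) (M : Matrix (Fin (k + 1)) (Fin (k + 1)) ℤ) (c : Fin (k + 1) → ℤ) (A B W : ℕ) (ε : ℝ) :
    ∃ q₀ : ℕ, ∀ t : (Fin k → ℤ) × ℕ, q₀ ≤ t.2 → SystemLaw (chainM k a * M) ((chainM k a).mulVec c) A B 1 (W + 1) ε t →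
      ChainLaw a M c A B W ε t := by
  obtain ⟨q₀, h0⟩ := log_large (∑ i, ∑ j, |((chainM k a) i j : ℝ)| + ∑ i : Fin (k + 1), |(lead a (i + 1) : ℝ)|)
  refine ⟨q₀, fun t ht hs h hh hadm => ?_⟩
  have hC := h0 t.2 ht
  have hsum1 : (0 : ℝ) ≤ ∑ i, ∑ j, |((chainM k a) i j : ℝ)| := sum_nonneg fun i _ => sum_nonneg fun j _ => abs_nonneg _
  have hsum2 : (0 : ℝ) ≤ ∑ i : Fin (k + 1), |(lead a (i + 1) : ℝ)| := sum_nonneg fun i _ => abs_nonneg _
  have hL : (0 : ℝ) ≤ Real.log t.2 := Real.log_natCast_nonneg _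
  have e1 : (fun i : Fin (k + 2) => lead a i) = Fin.cons 1 (fun i : Fin (k + 1) => lead a (i + 1)) := by
    funext i
    refine Fin.cases ?_ (fun i => ?_) i
    · simp [lead]
    · rw [Fin.cons_succ, Fin.val_succ]
  have e2 : (fun i : Fin (k + 2) => term a h 0 i) = Fin.cons 0 (fun i : Fin (k + 1) => term a h 0 (i + 1)) := by
    funext i
    refine Fin.cases ?_ (fun i => ?_) i
    · simp [term]
    · rw [Fin.cons_succ, Fin.val_succ]
  rw [e1, e2] at hadm ⊢
  refine hs (fun i => term a h 0 (i + 1)) (fun i => ?_) (fun i => lead a (i + 1)) (fun i => ?_) hadm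
  · have e3 : ((term a h 0 (i + 1) : ℤ) : ℝ) - ((((chainM k a * M).mulVec (vec t) i + (chainM k a).mulVec c i : ℤ)) : ℝ) =
        ∑ j, ((chainM k a) i j : ℝ) * ((h j : ℝ) - (((M.mulVec (vec t) j + c j : ℤ)) : ℝ)) := by
      have e4 : term a h 0 (i + 1) - ((chainM k a * M).mulVec (vec t) i + (chainM k a).mulVec c i) =
          ∑ j, (chainM k a) i j * (h j - (M.mulVec (vec t) j + c j)) := by
        rw [term_mat, ← Matrix.mulVec_mulVec]
        simp only [Matrix.mulVec, dotProduct, mul_sub, mul_add, sum_sub_distrib, sum_add_distrib]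
      have e5 := congrArg (fun z : ℤ => (z : ℝ)) e4
      push_cast at e5 ⊢
      exact e5
    rw [e3]
    calc |∑ j, ((chainM k a) i j : ℝ) * ((h j : ℝ) - (((M.mulVec (vec t) j + c j : ℤ)) : ℝ))|
        ≤ ∑ j, |((chainM k a) i j : ℝ) * ((h j : ℝ) - (((M.mulVec (vec t) j + c j : ℤ)) : ℝ))| := abs_sum_le_sum_abs _ _
      _ ≤ ∑ j, |((chainM k a) i j : ℝ)| * Real.log t.2 ^ W := by
          apply sum_le_sum
          intro j _
          rw [abs_mul]
          exact mul_le_mul_of_nonneg_left (hh j) (abs_nonneg _)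
      _ = (∑ j, |((chainM k a) i j : ℝ)|) * Real.log t.2 ^ W := by rw [sum_mul]
      _ ≤ Real.log t.2 ^ 1 * Real.log t.2 ^ W := by
          apply mul_le_mul_of_nonneg_right _ (by positivity)
          have : (∑ j, |((chainM k a) i j : ℝ)|) ≤ ∑ i, ∑ j, |((chainM k a) i j : ℝ)| :=
            single_le_sum (f := fun i => ∑ j, |((chainM k a) i j : ℝ)|)
              (fun i _ => sum_nonneg fun j _ => abs_nonneg _) (mem_univ i)
          linarith
      _ = Real.log t.2 ^ (W + 1) := by ring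
  · have : |(lead a (i + 1) : ℝ)| ≤ ∑ i : Fin (k + 1), |(lead a (i + 1) : ℝ)| :=
      single_le_sum (f := fun i : Fin (k + 1) => |(lead a (i + 1) : ℝ)|) (fun i _ => abs_nonneg _) (mem_univ i)
    linarith

/-- **Q8: chains with defects near linear forms in good approximations.** -/
theorem chains_all (k : ℕ) (hk : 1 ≤ k) : ∀ᵐ α : Fin k → ℝ, ∀ (a : ℕ → ℤ) (M : Matrix (Fin (k + 1)) (Fin (k + 1)) ℤ)
    (c : Fin (k + 1) → ℤ) (A B W : ℕ) (ε : ℝ), M.det ≠ 0 → 0 < ε → ∀ b : ℝ,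
      {t | Near b (1 / k) α t ∧ ¬ ChainLaw a M c A B W ε t}.Finite := by
  filter_upwards [systems_all k hk] with α hα a M c A B W ε hM he b
  obtain ⟨q₀, h0⟩ := chain_of a M c A B W ε
  refine ((hα (chainM k a * M) ((chainM k a).mulVec c) A B 1 (W + 1) ε (by rw [Matrix.det_mul, chainM_det, one_mul]; exact hM)
    he b).union (near_small_finite α b (1 / k) q₀)).subset ?_
  rintro t ⟨h1, h2⟩
  rcases lt_or_ge t.2 q₀ with h3 | h3
  · exact Or.inr ⟨h3, h1⟩
  · exact Or.inl ⟨h1, fun h4 => h2 (h0 t h3 h4)⟩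

/-- **Q9: chains with defects near linear forms in the convergents.** -/
theorem chains_conv : ∀ᵐ ξ : ℝ, ∀ (a : ℕ → ℤ) (M : Matrix (Fin 2) (Fin 2) ℤ) (c : Fin 2 → ℤ) (A B W : ℕ) (ε : ℝ), M.det ≠ 0 →
    0 < ε → ∀ᶠ n : ℕ in atTop, ChainLaw a M c A B W ε (conv ξ n) := by
  have hirr : ∀ᵐ ξ : ℝ, ξ ∉ Set.range ((↑) : ℚ → ℝ) := (Set.countable_range ((↑) : ℚ → ℝ)).ae_notMem volume
  filter_upwards [systems_conv, hirr] with ξ hξ hi a M c A B W ε hM he
  obtain ⟨q₀, h0⟩ := chain_of a M c A B W ε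
  filter_upwards [hξ (chainM 1 a * M) ((chainM 1 a).mulVec c) A B 1 (W + 1) ε
    (by rw [Matrix.det_mul, chainM_det, one_mul]; exact hM) he,
    (convergent_approx (ξ := ξ) hi).2.eventually (eventually_ge_atTop q₀)] with n h4 h5
  exact h0 (conv ξ n) h5 h4

/-- the pairs `x`, `2 x + y`, `y` odd -/
lemma adm_two (y : ℤ) (hy : Odd y) : Admissible ![1, 2] ![0, y] := by
  refine ⟨?_, ?_, ?_⟩
  · rw [Fin.forall_fin_two]
    simp
  · rw [Fin.forall_fin_two]
    constructor <;> rw [Fin.forall_fin_two] <;> simp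
  · intro p hp
    have hpi := Nat.prime_iff_prime_int.1 hp
    by_contra hcon
    push Not at hcon
    have h1 := hcon 1
    have h2 := hcon (-1)
    simp only [Fin.prod_univ_two, Matrix.cons_val_zero, Matrix.cons_val_one] at h1 h2
    have h3 : (p : ℤ) ∣ 2 + y := by
      rcases hpi.dvd_or_dvd h1 with h | h
      · exact absurd (Int.isUnit_iff.2 (Or.inl (by ring))) (fun hu : IsUnit (1 * 1 + 0 : ℤ) => hpi.not_isUnit (isUnit_of_dvd_unit h hu))
      · simpa using h
    have h4 : (p : ℤ) ∣ -2 + y := by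
      rcases hpi.dvd_or_dvd h2 with h | h
      · exact absurd (Int.isUnit_iff.2 (Or.inr (by ring))) (fun hu : IsUnit (1 * -1 + 0 : ℤ) => hpi.not_isUnit (isUnit_of_dvd_unit h hu))
      · simpa using h
    have h5 : (p : ℤ) ∣ 4 := by
      have := dvd_sub h3 h4
      ring_nf at this
      exact this
    have h6 : p ∣ 2 ^ 2 := by exact_mod_cast h5
    have h7 : p = 2 := (Nat.prime_dvd_prime_iff_eq hp Nat.prime_two).1 (hp.dvd_of_dvd_pow h6)
    subst h7
    obtain ⟨m, hm⟩ := hy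
    obtain ⟨l, hl⟩ := h3
    push_cast at hl
    omega

end Pool.Agent.N220.CF
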