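import Pool.Agent.N220.CF.Q3

/-! Campaign CL (helper220): linear images of the defects, and trees. -/

set_option autoImplicit false

open Filter Topology MeasureTheory Finset

namespace Pool.Agent.N220.CF

/-- linear images: systems `x`, `a_i x + (L h)_i` with `h` near `M (q, p) + c` -/
lemma lin_of {k : ℕ} (L M : Matrix (Fin (k + 1)) (Fin (k + 1)) ℤ) (c : Fin (k + 1) → ℤ) (a : Fin (k + 1) → ℤ) (A B W : ℕ) (ε : ℝ) :
    ∃ q₀ : ℕ, ∀ t : (Fin k → ℤ) × ℕ, q₀ ≤ t.2 → SystemLaw (L * M) (L.mulVec c) A B 1 (W + 1) ε t →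
      ∀ h : Fin (k + 1) → ℤ, (∀ i, |(h i : ℝ) - (((M.mulVec (vec t) i + c i : ℤ)) : ℝ)| ≤ Real.log t.2 ^ W) →
        Admissible (Fin.cons 1 a : Fin (k + 2) → ℤ) (Fin.cons 0 (L.mulVec h)) →
          HL ε A B t.2 (Fin.cons 1 a : Fin (k + 2) → ℤ) (Fin.cons 0 (L.mulVec h)) := by
  obtain ⟨q₀, h0⟩ := log_large (∑ i, ∑ j, |(L i j : ℝ)| + ∑ i : Fin (k + 1), |(a i : ℝ)|)
  refine ⟨q₀, fun t ht hs h hh hadm => ?_⟩
  have hC := h0 t.2 ht
  have hsum1 : (0 : ℝ) ≤ ∑ i, ∑ j, |(L i j : ℝ)| := sum_nonneg fun i _ => sum_nonneg fun j _ => abs_nonneg _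
  have hsum2 : (0 : ℝ) ≤ ∑ i : Fin (k + 1), |(a i : ℝ)| := sum_nonneg fun i _ => abs_nonneg _
  have hL : (0 : ℝ) ≤ Real.log t.2 := Real.log_natCast_nonneg _
  refine hs (L.mulVec h) (fun i => ?_) a (fun i => ?_) hadm
  · have e3 : ((L.mulVec h i : ℤ) : ℝ) - ((((L * M).mulVec (vec t) i + L.mulVec c i : ℤ)) : ℝ) =
        ∑ j, (L i j : ℝ) * ((h j : ℝ) - (((M.mulVec (vec t) j + c j : ℤ)) : ℝ)) := by
      have e4 : L.mulVec h i - ((L * M).mulVec (vec t) i + L.mulVec c i) =
          ∑ j, L i j * (h j - (M.mulVec (vec t) j + c j)) := by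
        rw [← Matrix.mulVec_mulVec]
        simp only [Matrix.mulVec, dotProduct, mul_sub, mul_add, sum_sub_distrib, sum_add_distrib]
      have e5 := congrArg (fun z : ℤ => (z : ℝ)) e4
      push_cast at e5 ⊢
      exact e5
    rw [e3]
    calc |∑ j, (L i j : ℝ) * ((h j : ℝ) - (((M.mulVec (vec t) j + c j : ℤ)) : ℝ))|
        ≤ ∑ j, |(L i j : ℝ) * ((h j : ℝ) - (((M.mulVec (vec t) j + c j : ℤ)) : ℝ))| := abs_sum_le_sum_abs _ _
      _ ≤ ∑ j, |(L i j : ℝ)| * Real.log t.2 ^ W := by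
          apply sum_le_sum
          intro j _
          rw [abs_mul]
          exact mul_le_mul_of_nonneg_left (hh j) (abs_nonneg _)
      _ = (∑ j, |(L i j : ℝ)|) * Real.log t.2 ^ W := by rw [sum_mul]
      _ ≤ Real.log t.2 ^ 1 * Real.log t.2 ^ W := by
          apply mul_le_mul_of_nonneg_right _ (by positivity)
          have : (∑ j, |(L i j : ℝ)|) ≤ ∑ i, ∑ j, |(L i j : ℝ)| :=
            single_le_sum (f := fun i => ∑ j, |(L i j : ℝ)|) (fun i _ => sum_nonneg fun j _ => abs_nonneg _) (mem_univ i)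
          linarith
      _ = Real.log t.2 ^ (W + 1) := by ring
  · have : |(a i : ℝ)| ≤ ∑ i : Fin (k + 1), |(a i : ℝ)| :=
      single_le_sum (f := fun i : Fin (k + 1) => |(a i : ℝ)|) (fun i _ => abs_nonneg _) (mem_univ i)
    linarith

/-- The value at the node `i` of the tree in which the node `i + 1` is joined to the node `par i` (if this is at most `i`, and to
`i` otherwise): the root `0` has the value `n`, and the value at `i + 1` is `a i` times the value at its parent, plus `h i`. -/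
def node (par : ℕ → ℕ) (a h : ℕ → ℤ) (n : ℤ) : ℕ → ℤ
  | 0 => n
  | i + 1 => a i * node par a h n (min (par i) i) + h i
termination_by i => i
decreasing_by exact Nat.lt_succ_of_le (min_le_right _ _)

/-- the leading coefficient at a node -/
def slope (par : ℕ → ℕ) (a : ℕ → ℤ) : ℕ → ℤ
  | 0 => 1
  | i + 1 => a i * slope par a (min (par i) i)
termination_by i => i
decreasing_by exact Nat.lt_succ_of_le (min_le_right _ _)

/-- the coefficient of `h j` in the constant term at a node -/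
def coef (par : ℕ → ℕ) (a : ℕ → ℤ) (j : ℕ) : ℕ → ℤ
  | 0 => 0
  | i + 1 => a i * coef par a j (min (par i) i) + if j = i then 1 else 0
termination_by i => i
decreasing_by exact Nat.lt_succ_of_le (min_le_right _ _)

/-- The value at a node is the polynomial `slope i * n + node 0 i` in `n`. -/
lemma node_eq (par : ℕ → ℕ) (a h : ℕ → ℤ) (n : ℤ) (i : ℕ) :
    node par a h n i = slope par a i * n + node par a h 0 i := by
  induction i using Nat.strong_induction_on with
  | _ i ih =>
    cases i with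
    | zero => simp [node, slope]
    | succ i =>
      rw [node, node, slope, ih (min (par i) i) (Nat.lt_succ_of_le (min_le_right _ _))]
      ring

lemma coef_zero (par : ℕ → ℕ) (a : ℕ → ℤ) (j i : ℕ) (h : i ≤ j) : coef par a j i = 0 := by
  induction i using Nat.strong_induction_on with
  | _ i ih =>
    cases i with
    | zero => simp [coef]
    | succ i =>
      rw [coef, ih (min (par i) i) (Nat.lt_succ_of_le (min_le_right _ _)) ((min_le_right _ _).trans (by omega)),
        if_neg (by omega), mul_zero, add_zero]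

lemma coef_diag (par : ℕ → ℕ) (a : ℕ → ℤ) (j : ℕ) : coef par a j (j + 1) = 1 := by
  rw [coef, coef_zero par a j _ (min_le_right _ _), if_pos rfl, mul_zero, zero_add]

lemma node_sum (par : ℕ → ℕ) (a h : ℕ → ℤ) (m i : ℕ) (hi : i ≤ m) :
    node par a h 0 i = ∑ j ∈ range m, coef par a j i * h j := by
  induction i using Nat.strong_induction_on with
  | _ i ih =>
    cases i with
    | zero => simp [node, coef]
    | succ i =>
      rw [node, ih (min (par i) i) (Nat.lt_succ_of_le (min_le_right _ _)) ((min_le_right _ _).trans (by omega)), mul_sum]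
      simp only [coef, add_mul, sum_add_distrib]
      congr 1
      · apply sum_congr rfl
        intro j _
        ring
      · simp only [ite_mul, one_mul, zero_mul]
        rw [sum_ite_eq' (range m) i]
        rw [if_pos (by rw [mem_range]; omega)]

/-- the matrix of the constant terms at the nodes of a tree -/
def treeM (k : ℕ) (par : ℕ → ℕ) (a : ℕ → ℤ) : Matrix (Fin (k + 1)) (Fin (k + 1)) ℤ := fun i j => coef par a j (i + 1)

lemma treeM_det (k : ℕ) (par : ℕ → ℕ) (a : ℕ → ℤ) : (treeM k par a).det = 1 := by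
  rw [Matrix.det_of_isLowerTriangular]
  · apply prod_eq_one
    intro i _
    exact coef_diag par a i
  · intro i j hij
    simp only [treeM]
    apply coef_zero
    have : i < j := by simpa using hij
    exact this

/-- The Hardy-Littlewood law for the values at the nodes `0, ..., k + 1` of a tree, for all defects `h` near `M (q, p) + c`. -/
def TreeLaw {k : ℕ} (par : ℕ → ℕ) (a : ℕ → ℤ) (M : Matrix (Fin (k + 1)) (Fin (k + 1)) ℤ) (c : Fin (k + 1) → ℤ) (A B W : ℕ)
    (ε : ℝ) (t : (Fin k → ℤ) × ℕ) : Prop :=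
  ∀ h : ℕ → ℤ, (∀ i : Fin (k + 1), |(h i : ℝ) - (((M.mulVec (vec t) i + c i : ℤ)) : ℝ)| ≤ Real.log t.2 ^ W) →
    Admissible (fun i : Fin (k + 2) => slope par a i) (fun i => node par a h 0 i) →
      HL ε A B t.2 (fun i : Fin (k + 2) => slope par a i) (fun i => node par a h 0 i)

lemma tree_of {k : ℕ} (par : ℕ → ℕ) (a : ℕ → ℤ) (M : Matrix (Fin (k + 1)) (Fin (k + 1)) ℤ) (c : Fin (k + 1) → ℤ) (A B W : ℕ)
    (ε : ℝ) : ∃ q₀ : ℕ, ∀ t : (Fin k → ℤ) × ℕ, q₀ ≤ t.2 →
      SystemLaw (treeM k par a * M) ((treeM k par a).mulVec c) A B 1 (W + 1) ε t → TreeLaw par a M c A B W ε t := by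
  obtain ⟨q₀, h0⟩ := lin_of (treeM k par a) M c (fun i => slope par a (i + 1)) A B W ε
  refine ⟨q₀, fun t ht hs h hh hadm => ?_⟩
  have h1 := h0 t ht hs (fun i : Fin (k + 1) => h i) hh
  have e1 : (fun i : Fin (k + 2) => slope par a i) = Fin.cons 1 (fun i : Fin (k + 1) => slope par a (i + 1)) := by
    funext i
    refine Fin.cases ?_ (fun i => ?_) i
    · simp [slope]
    · rw [Fin.cons_succ, Fin.val_succ]
  have e2 : (fun i : Fin (k + 2) => node par a h 0 i) = Fin.cons 0 ((treeM k par a).mulVec (fun i : Fin (k + 1) => h i)) := by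
    funext i
    refine Fin.cases ?_ (fun i => ?_) i
    · simp [node]
    · rw [Fin.cons_succ, Fin.val_succ, node_sum par a h (k + 1) _ (by omega)]
      simp only [Matrix.mulVec, dotProduct, treeM]
      rw [Fin.sum_univ_eq_sum_range (fun j => coef par a j ((i : ℕ) + 1) * h j) (k + 1)]
  rw [e1, e2] at hadm ⊢
  exact h1 hadm

/-- **Q10: trees with defects near linear forms in good approximations.** -/
theorem trees_all (k : ℕ) (hk : 1 ≤ k) : ∀ᵐ α : Fin k → ℝ, ∀ (par : ℕ → ℕ) (a : ℕ → ℤ) (M : Matrix (Fin (k + 1)) (Fin (k + 1)) ℤ)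
    (c : Fin (k + 1) → ℤ) (A B W : ℕ) (ε : ℝ), M.det ≠ 0 → 0 < ε → ∀ b : ℝ,
      {t | Near b (1 / k) α t ∧ ¬ TreeLaw par a M c A B W ε t}.Finite := by
  filter_upwards [systems_all k hk] with α hα par a M c A B W ε hM he b
  obtain ⟨q₀, h0⟩ := tree_of par a M c A B W ε
  refine ((hα (treeM k par a * M) ((treeM k par a).mulVec c) A B 1 (W + 1) ε (by rw [Matrix.det_mul, treeM_det, one_mul]; exact hM)
    he b).union (near_small_finite α b (1 / k) q₀)).subset ?_
  rintro t ⟨h1, h2⟩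
  rcases lt_or_ge t.2 q₀ with h3 | h3
  · exact Or.inr ⟨h3, h1⟩
  · exact Or.inl ⟨h1, fun h4 => h2 (h0 t h3 h4)⟩

/-- **Q11: trees with defects near linear forms in the convergents.** -/
theorem trees_conv : ∀ᵐ ξ : ℝ, ∀ (par : ℕ → ℕ) (a : ℕ → ℤ) (M : Matrix (Fin 2) (Fin 2) ℤ) (c : Fin 2 → ℤ) (A B W : ℕ) (ε : ℝ),
    M.det ≠ 0 → 0 < ε → ∀ᶠ n : ℕ in atTop, TreeLaw par a M c A B W ε (conv ξ n) := by
  have hirr : ∀ᵐ ξ : ℝ, ξ ∉ Set.range ((↑) : ℚ → ℝ) := (Set.countable_range ((↑) : ℚ → ℝ)).ae_notMem volume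
  filter_upwards [systems_conv, hirr] with ξ hξ hi par a M c A B W ε hM he
  obtain ⟨q₀, h0⟩ := tree_of par a M c A B W ε
  filter_upwards [hξ (treeM 1 par a * M) ((treeM 1 par a).mulVec c) A B 1 (W + 1) ε
    (by rw [Matrix.det_mul, treeM_det, one_mul]; exact hM) he,
    (convergent_approx (ξ := ξ) hi).2.eventually (eventually_ge_atTop q₀)] with n h4 h5
  exact h0 (conv ξ n) h5 h4

end Pool.Agent.N220.CF
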