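import Pool.Agent.N220.CF.Q3

/-! Campaign CL (helper220): pairs `x`, `x + h`: admissibility and a lower bound for the singular series. -/

set_option autoImplicit false

open Filter Topology MeasureTheory Finset

namespace Pool.Agent.N220.CF

/-- the pairs `x`, `x + h`, `h ≠ 0` even -/
lemma adm_one (h : ℤ) (hh : Even h) (h0 : h ≠ 0) : Admissible ![1, 1] ![0, h] := by
  refine ⟨?_, ?_, ?_⟩
  · rw [Fin.forall_fin_two]
    simp
  · rw [Fin.forall_fin_two]
    constructor <;> rw [Fin.forall_fin_two]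
    · refine ⟨by simp, fun _ => ⟨fun h1 => h0 h1.2.symm, fun h1 => by have := h1.1; norm_num at this⟩⟩
    · refine ⟨fun _ => ⟨fun h1 => h0 h1.2, fun h1 => by have := h1.1; norm_num at this⟩, by simp⟩
  · intro p hp
    have hpi := Nat.prime_iff_prime_int.1 hp
    by_contra hcon
    push Not at hcon
    have h1 := hcon 1
    have h2 := hcon (-1)
    simp only [Fin.prod_univ_two, Matrix.cons_val_zero, Matrix.cons_val_one] at h1 h2
    have h3 : (p : ℤ) ∣ 1 + h := by
      rcases hpi.dvd_or_dvd h1 with h | h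
      · exact absurd (Int.isUnit_iff.2 (Or.inl (by ring)))
          (fun hu : IsUnit (1 * 1 + 0 : ℤ) => hpi.not_isUnit (isUnit_of_dvd_unit h hu))
      · simpa using h
    have h4 : (p : ℤ) ∣ -1 + h := by
      rcases hpi.dvd_or_dvd h2 with h | h
      · exact absurd (Int.isUnit_iff.2 (Or.inr (by ring)))
          (fun hu : IsUnit (1 * -1 + 0 : ℤ) => hpi.not_isUnit (isUnit_of_dvd_unit h hu))
      · simpa using h
    have h5 : (p : ℤ) ∣ 2 := by
      have := dvd_sub h3 h4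
      ring_nf at this
      exact this
    have h7 : p = 2 := (Nat.prime_dvd_prime_iff_eq hp Nat.prime_two).1 (by exact_mod_cast h5)
    subst h7
    obtain ⟨m, hm⟩ := hh
    obtain ⟨l, hl⟩ := h3
    push_cast at hl
    omega

/-- the number of classes is at most two, and one modulo `2` -/
lemma omega_pair (h : ℤ) (p : ℕ) (hp : p.Prime) : omega ![1, 1] ![0, h] p ≤ 2 := by
  have hp0 : 0 < p := hp.pos
  have hpz : (0 : ℤ) < p := by exact_mod_cast hp0
  have hsub : (range p).filter (fun n : ℕ => (p : ℤ) ∣ ∏ i, ((![1, 1] : Fin 2 → ℤ) i * (n : ℤ) + (![0, h] : Fin 2 → ℤ) i)) ⊆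
      {0, ((-h) % p).toNat} := by
    intro n hn
    rw [mem_filter, mem_range, Fin.prod_univ_two] at hn
    simp only [Matrix.cons_val_zero, Matrix.cons_val_one] at hn
    obtain ⟨h1, h2⟩ := hn
    rw [mem_insert, mem_singleton]
    have h1' : (n : ℤ) < p := by exact_mod_cast h1
    rcases (Nat.prime_iff_prime_int.1 hp).dvd_or_dvd h2 with h3 | h3
    · left
      have h4 : (p : ℤ) ∣ (n : ℤ) := by simpa using h3
      have h5 : p ∣ n := by exact_mod_cast h4
      exact Nat.eq_zero_of_dvd_of_lt h5 h1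
    · right
      have h4 : (-h) % p = n := by
        have h5 : (p : ℤ) ∣ -h - n := by
          obtain ⟨l, hl⟩ := h3
          exact ⟨-l, by linear_combination -hl⟩
        have h6 : (-h) % p = (n : ℤ) % p := by
          have h7 : (n : ℤ) ≡ -h [ZMOD p] := (Int.modEq_iff_dvd).2 h5
          exact h7.symm
        rw [h6]
        exact Int.emod_eq_of_lt (by positivity) h1'
      rw [h4]
      simp
  refine (card_le_card hsub).trans ?_
  exact card_le_two

lemma omega_pair_two (h : ℤ) (hh : Even h) : omega ![1, 1] ![0, h] 2 ≤ 1 := by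
  have hsub : (range 2).filter (fun n : ℕ => ((2 : ℕ) : ℤ) ∣ ∏ i, ((![1, 1] : Fin 2 → ℤ) i * (n : ℤ) + (![0, h] : Fin 2 → ℤ) i)) ⊆
      {0} := by
    intro n hn
    rw [mem_filter, mem_range, Fin.prod_univ_two] at hn
    simp only [Matrix.cons_val_zero, Matrix.cons_val_one] at hn
    obtain ⟨h1, h2⟩ := hn
    rw [mem_singleton]
    by_contra h3
    have h4 : n = 1 := by omega
    subst h4
    obtain ⟨m, hm⟩ := hh
    obtain ⟨l, hl⟩ := h2
    push_cast at hl
    rw [hm] at hl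
    omega
  refine (card_le_card hsub).trans ?_
  simp

/-- `∏_{m = 2}^{M} (1 - 1 / m ^ 2) = (M + 1) / (2 M)` -/
lemma prod_tele (M : ℕ) (hM : 1 ≤ M) : ∏ m ∈ Icc 2 M, (1 - 1 / (m : ℝ) ^ 2) = ((M : ℝ) + 1) / (2 * M) := by
  induction M, hM using Nat.le_induction with
  | base => norm_num
  | succ M hM ih =>
    have hM0 : (0 : ℝ) < M := by exact_mod_cast hM
    rw [← Finset.insert_Icc_right_eq_Icc_add_one (by omega), prod_insert (by simp), ih]
    push_cast
    field_simp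
    ring

/-- the partial products of the singular series are at least `1` -/
lemma euler_pair (h : ℤ) (hh : Even h) (z : ℕ) (hz : 2 ≤ z) : 1 ≤ eulerProd ![1, 1] ![0, h] z := by
  have hfac : ∀ p ∈ (Icc 3 z).filter Nat.Prime,
      (1 - 1 / (((p - 1 : ℕ)) : ℝ) ^ 2) ≤ (1 - (omega ![1, 1] ![0, h] p : ℝ) / p) / (1 - 1 / (p : ℝ)) ^ 2 := by
    intro p hp
    rw [mem_filter, mem_Icc] at hp
    have hp3 : (3 : ℝ) ≤ p := by exact_mod_cast hp.1.1
    have hw : (omega ![1, 1] ![0, h] p : ℝ) ≤ 2 := by exact_mod_cast omega_pair h p hp.2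
    rw [Nat.cast_sub (by omega), Nat.cast_one]
    have h1 : (0 : ℝ) < (1 - 1 / (p : ℝ)) ^ 2 := by
      have : (1 : ℝ) / p < 1 := by
        rw [div_lt_one (by linarith)]
        linarith
      have : (0 : ℝ) < 1 - 1 / (p : ℝ) := by linarith
      positivity
    rw [le_div_iff₀ h1]
    have h2 : (1 - 1 / ((p : ℝ) - 1) ^ 2) * (1 - 1 / (p : ℝ)) ^ 2 = 1 - 2 / p := by
      have : (p : ℝ) - 1 ≠ 0 := by linarith
      field_simp
      ring
    rw [h2]
    have h3 : (omega ![1, 1] ![0, h] p : ℝ) / p ≤ 2 / p := div_le_div_of_nonneg_right hw (by linarith)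
    linarith
  have hsplit : (Icc 1 z).filter Nat.Prime = insert 2 ((Icc 3 z).filter Nat.Prime) := by
    ext p
    simp only [mem_insert, mem_filter, mem_Icc]
    constructor
    · rintro ⟨⟨h1, h2⟩, h3⟩
      have := h3.two_le
      by_cases h4 : p = 2
      · exact Or.inl h4
      · exact Or.inr ⟨⟨by omega, h2⟩, h3⟩
    · rintro (rfl | ⟨⟨h1, h2⟩, h3⟩)
      · exact ⟨⟨by norm_num, hz⟩, Nat.prime_two⟩
      · exact ⟨⟨by omega, h2⟩, h3⟩
  unfold eulerProd
  rw [hsplit, prod_insert (by simp)]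
  have hpos : ∀ m : ℕ, 2 ≤ m → (0 : ℝ) ≤ 1 - 1 / (m : ℝ) ^ 2 ∧ (1 : ℝ) - 1 / (m : ℝ) ^ 2 ≤ 1 := by
    intro m hm
    have hm' : (2 : ℝ) ≤ m := by exact_mod_cast hm
    have h1 : (1 : ℝ) / (m : ℝ) ^ 2 ≤ 1 := by
      rw [div_le_one (by positivity)]
      nlinarith
    have h2 : (0 : ℝ) ≤ 1 / (m : ℝ) ^ 2 := by positivity
    constructor <;> linarith
  have h1 : (1 : ℝ) / 2 ≤ ∏ p ∈ (Icc 3 z).filter Nat.Prime, (1 - 1 / (((p - 1 : ℕ)) : ℝ) ^ 2) := by
    have e1 : ∏ p ∈ (Icc 3 z).filter Nat.Prime, (1 - 1 / (((p - 1 : ℕ)) : ℝ) ^ 2) =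
        ∏ m ∈ ((Icc 3 z).filter Nat.Prime).image (fun p : ℕ => p - 1), (1 - 1 / (m : ℝ) ^ 2) := by
      rw [prod_image]
      intro a ha b hb hab
      rw [mem_coe, mem_filter, mem_Icc] at ha hb
      simp only at hab
      omega
    rw [e1]
    have hsub : ((Icc 3 z).filter Nat.Prime).image (fun p : ℕ => p - 1) ⊆ Icc 2 z := by
      intro m hm
      rw [mem_image] at hm
      obtain ⟨p, hp, rfl⟩ := hm
      rw [mem_filter, mem_Icc] at hp
      rw [mem_Icc]
      omega
    have h2 : ∏ m ∈ Icc 2 z, (1 - 1 / (m : ℝ) ^ 2) ≤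
        ∏ m ∈ ((Icc 3 z).filter Nat.Prime).image (fun p : ℕ => p - 1), (1 - 1 / (m : ℝ) ^ 2) := by
      rw [← prod_sdiff hsub]
      have h3 : ∏ m ∈ Icc 2 z \ ((Icc 3 z).filter Nat.Prime).image (fun p : ℕ => p - 1), (1 - 1 / (m : ℝ) ^ 2) ≤ 1 := by
        apply prod_le_one
        · intro m hm
          exact (hpos m (mem_Icc.1 (mem_sdiff.1 hm).1).1).1
        · intro m hm
          exact (hpos m (mem_Icc.1 (mem_sdiff.1 hm).1).1).2
      have h4 : 0 ≤ ∏ m ∈ ((Icc 3 z).filter Nat.Prime).image (fun p : ℕ => p - 1), (1 - 1 / (m : ℝ) ^ 2) :=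
        prod_nonneg fun m hm => (hpos m (mem_Icc.1 (hsub hm)).1).1
      calc _ ≤ 1 * ∏ m ∈ ((Icc 3 z).filter Nat.Prime).image (fun p : ℕ => p - 1), (1 - 1 / (m : ℝ) ^ 2) :=
            mul_le_mul_of_nonneg_right h3 h4
        _ = _ := one_mul _
    refine le_trans ?_ h2
    rw [prod_tele z (by omega), div_le_div_iff₀ (by norm_num) (by have : (2 : ℝ) ≤ z := by exact_mod_cast hz
                                                                  linarith)]
    linarith
  have h2 : ∏ p ∈ (Icc 3 z).filter Nat.Prime, (1 - 1 / (((p - 1 : ℕ)) : ℝ) ^ 2) ≤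
      ∏ p ∈ (Icc 3 z).filter Nat.Prime, (1 - (omega ![1, 1] ![0, h] p : ℝ) / p) / (1 - 1 / (p : ℝ)) ^ 2 := by
    apply Finset.prod_le_prod
    · intro p hp
      rw [mem_filter, mem_Icc] at hp
      exact (hpos (p - 1) (by omega)).1
    · exact hfac
  have h3 : (2 : ℝ) ≤ (1 - (omega ![1, 1] ![0, h] 2 : ℝ) / ((2 : ℕ) : ℝ)) / (1 - 1 / (((2 : ℕ)) : ℝ)) ^ 2 := by
    have hw : (omega ![1, 1] ![0, h] 2 : ℝ) ≤ 1 := by exact_mod_cast omega_pair_two h hh
    rw [le_div_iff₀ (by norm_num)]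
    push_cast
    linarith
  have h4 := h1.trans h2
  nlinarith

/-- the singular series is at least `1` -/
lemma series_pair (h : ℤ) (hh : Even h) {S : ℝ} (hS : Tendsto (eulerProd ![1, 1] ![0, h]) atTop (𝓝 S)) : 1 ≤ S :=
  ge_of_tendsto hS ((eventually_ge_atTop 2).mono fun z hz => euler_pair h hh z hz)

end Pool.Agent.N220.CF
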