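import Pool.Agent.N220.CF.M

/-! Campaign CL (helper220): exceptional sets of integer vectors depending on the dyadic scale; convergents as vectors. -/

set_option autoImplicit false

open Filter Topology MeasureTheory Finset

namespace Pool.Agent.N220.CF

lemma const_of_ev (a b : ℕ → ℝ) (ha : ∀ j, 0 ≤ a j) (hb : ∀ j, 0 < b j) (c : ℝ) (hc : 0 ≤ c) (j₀ : ℕ)
    (h : ∀ j, j₀ ≤ j → a j ≤ c * b j) : ∃ K : ℝ, 0 ≤ K ∧ ∀ j, a j ≤ K * b j := by
  have h0 : ∀ i, 0 ≤ a i / b i := fun i => div_nonneg (ha i) (hb i).le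
  have hs : 0 ≤ ∑ i ∈ range j₀, a i / b i := Finset.sum_nonneg fun i _ => h0 i
  refine ⟨c + ∑ i ∈ range j₀, a i / b i, by linarith, fun j => ?_⟩
  rcases le_total j₀ j with hj | hj
  · have := h j hj
    have h1 := mul_nonneg hs (hb j).le
    linarith
  · rcases hj.lt_or_eq with hj | hj
    · have h1 := Finset.single_le_sum (f := fun i => a i / b i) (fun i _ => h0 i) (mem_range.2 hj)
      have h2 : a j = a j / b j * b j := (div_mul_cancel₀ _ (hb j).ne').symm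
      have h3 := mul_le_mul_of_nonneg_right h1 (hb j).le
      have h4 := mul_nonneg hc (hb j).le
      rw [h2]
      linarith
    · have := h j hj.ge
      have h1 := mul_nonneg hs (hb j).le
      linarith

/-- the box of the scale `X` -/
def Box (k M X : ℕ) : Set ((Fin k → ℤ) × ℕ) := {t | 1 ≤ t.2 ∧ t.2 ≤ X ∧ ∀ i, |t.1 i| ≤ (M : ℤ) * X}

lemma Box_finite (k M X : ℕ) : (Box k M X).Finite := by
  refine (Finset.finite_toSet ((Fintype.piFinset fun _ : Fin k => Icc (-((M : ℤ) * X)) ((M : ℤ) * X)) ×ˢ (Icc 1 X))).subset ?_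
  rintro ⟨p, q⟩ ⟨h2, h3, h4⟩
  rw [mem_coe, mem_product, Fintype.mem_piFinset, mem_Icc]
  exact ⟨fun i => by rw [mem_Icc]; exact abs_le.1 (h4 i), h2, h3⟩

/-- **V1: exceptional sets of vectors depending on the dyadic scale.** -/
theorem vectors_dyadic (k : ℕ) (hk : 1 ≤ k) (S : ℕ → Set ((Fin k → ℤ) × ℕ)) {U : ℕ} (hU : 2 ≤ U)
    (hS : ∀ M : ℕ, ∃ X₀ : ℕ, ∀ X : ℕ, X₀ ≤ X → ((({t | t ∈ S X ∧ t ∈ Box k M X}).ncard : ℕ) : ℝ) ≤
      (X : ℝ) ^ (k + 1) / (Real.log X) ^ U) :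
    VectorsFinitelyMet k {t | t ∈ S (2 ^ (Nat.log 2 t.2 + 1))} := by
  refine ae_near _ hk (A := U) (by exact_mod_cast hU) fun M => ?_
  obtain ⟨X₀, hX₀⟩ := hS M
  have hl2 : 0 < Real.log 2 := Real.log_pos one_lt_two
  obtain ⟨C, hC0, hC⟩ := sum_shells U
  obtain ⟨sh, hsh⟩ : ∃ sh : ℕ → Set ((Fin k → ℤ) × ℕ), sh = fun j => {t | t ∈ S (2 ^ (j + 1)) ∧ t ∈ Box k M (2 ^ (j + 1))} := ⟨_, rfl⟩
  have hfin : ∀ j, (sh j).Finite := fun j => by
    rw [hsh]
    exact (Box_finite k M (2 ^ (j + 1))).subset fun t ht => ht.2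
  obtain ⟨K, hK0, hK⟩ := const_of_ev (fun j => (((sh j).ncard : ℕ) : ℝ)) (fun j => (2 : ℝ) ^ (j * (k + 1)) / ((j : ℝ) + 1) ^ U)
    (fun j => Nat.cast_nonneg _) (fun j => by positivity) (2 ^ (k + 1) / (Real.log 2) ^ U) (by positivity) X₀ (fun j hj => by
      have h1 := hX₀ (2 ^ (j + 1)) (by
        have := Nat.lt_two_pow_self (n := j + 1)
        omega)
      simp only [hsh]
      refine h1.trans (le_of_eq ?_)
      push_cast
      rw [Real.log_pow, mul_pow]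
      push_cast
      rw [← pow_mul, show (j + 1) * (k + 1) = j * (k + 1) + (k + 1) by ring, pow_add]
      field_simp)
  refine ⟨K * C * (2 * Real.log 2) ^ U, fun X hX => ?_⟩
  obtain ⟨J, hJ⟩ : ∃ J, J = Nat.log 2 ⌊X⌋₊ := ⟨_, rfl⟩
  have hF2 : 2 ≤ ⌊X⌋₊ := Nat.le_floor (by exact_mod_cast hX)
  have hJ1 : 2 ^ J ≤ ⌊X⌋₊ := by
    rw [hJ]
    exact Nat.pow_log_le_self 2 (by omega)
  have hJ2 : ⌊X⌋₊ < 2 ^ (J + 1) := by
    rw [hJ]
    exact Nat.lt_pow_succ_log_self one_lt_two _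
  have hX0 : (0 : ℝ) < X := by linarith
  have hJ1' : (2 : ℝ) ^ J ≤ X := by
    have : ((2 ^ J : ℕ) : ℝ) ≤ (⌊X⌋₊ : ℝ) := by exact_mod_cast hJ1
    push_cast at this
    exact this.trans (Nat.floor_le hX0.le)
  have hJ2' : X ≤ (2 : ℝ) ^ (J + 1) := by
    have h1 : ((⌊X⌋₊ + 1 : ℕ) : ℝ) ≤ ((2 ^ (J + 1) : ℕ) : ℝ) := by exact_mod_cast hJ2
    push_cast at h1
    exact (Nat.lt_floor_add_one X).le.trans h1
  have hsub : {t : (Fin k → ℤ) × ℕ | t ∈ Cone {t | t ∈ S (2 ^ (Nat.log 2 t.2 + 1))} M ∧ (t.2 : ℝ) ≤ X} ⊆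
      ⋃ j ∈ range (J + 1), sh j := by
    rintro ⟨p, q⟩ ⟨⟨h1, h2, h3⟩, h4⟩
    simp only [Set.mem_ofPred_eq] at h1 h2 h3 h4
    rw [Set.mem_iUnion₂]
    have hq : q < 2 ^ (Nat.log 2 q + 1) := Nat.lt_pow_succ_log_self one_lt_two q
    refine ⟨Nat.log 2 q, ?_, ?_⟩
    · rw [mem_range, hJ]
      exact Nat.lt_succ_of_le (Nat.log_mono_right (Nat.le_floor h4))
    · rw [hsh]
      refine ⟨h1, h2, hq.le, fun i => (h3 i).trans ?_⟩
      have : ((q : ℕ) : ℤ) ≤ ((2 ^ (Nat.log 2 q + 1) : ℕ) : ℤ) := by exact_mod_cast hq.le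
      exact mul_le_mul_of_nonneg_left this (Int.natCast_nonneg _)
  have hUfin : (⋃ j ∈ range (J + 1), sh j).Finite := Set.Finite.biUnion (Finset.finite_toSet _) fun j _ => hfin j
  refine ⟨hUfin.subset hsub, ?_⟩
  have h1 : (({t : (Fin k → ℤ) × ℕ | t ∈ Cone {t | t ∈ S (2 ^ (Nat.log 2 t.2 + 1))} M ∧ (t.2 : ℝ) ≤ X}.ncard : ℕ) : ℝ) ≤
      ∑ j ∈ range (J + 1), (((sh j).ncard : ℕ) : ℝ) := by
    have e1 := Set.ncard_le_ncard hsub hUfin
    have e2 : (⋃ j ∈ range (J + 1), sh j).ncard ≤ ∑ j ∈ range (J + 1), (sh j).ncard := by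
      classical
      have : ∀ n : ℕ, (⋃ j ∈ range n, sh j).ncard ≤ ∑ j ∈ range n, (sh j).ncard := by
        intro n
        induction n with
        | zero => simp
        | succ n ih =>
          rw [Finset.sum_range_succ, Finset.range_add_one, Finset.set_biUnion_insert, Set.union_comm]
          exact (Set.ncard_union_le _ _).trans (Nat.add_le_add_right ih _)
      exact this _
    exact_mod_cast e1.trans e2
  have hlX : 0 < Real.log X := Real.log_pos (by linarith)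
  have hlJ : Real.log X ≤ 2 * Real.log 2 * ((J : ℝ) + 1) := by
    have e1 : Real.log X ≤ Real.log ((2 : ℝ) ^ (J + 1)) := Real.log_le_log hX0 hJ2'
    rw [Real.log_pow] at e1
    push_cast at e1
    have : 0 ≤ ((J : ℝ) + 1) * Real.log 2 := by positivity
    linarith
  calc (({t : (Fin k → ℤ) × ℕ | t ∈ Cone {t | t ∈ S (2 ^ (Nat.log 2 t.2 + 1))} M ∧ (t.2 : ℝ) ≤ X}.ncard : ℕ) : ℝ)
      ≤ ∑ j ∈ range (J + 1), (((sh j).ncard : ℕ) : ℝ) := h1
    _ ≤ ∑ j ∈ range (J + 1), K * (2 ^ (J * k) * ((2 : ℝ) ^ j / ((j : ℝ) + 1) ^ U)) := by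
        refine Finset.sum_le_sum fun j hj => (hK j).trans (mul_le_mul_of_nonneg_left ?_ hK0)
        have hjJ : j ≤ J := by rw [mem_range] at hj; omega
        rw [show j * (k + 1) = j * k + j by ring, pow_add, mul_div_assoc]
        refine mul_le_mul_of_nonneg_right ?_ (by positivity)
        exact pow_le_pow_right₀ (by norm_num) (Nat.mul_le_mul_right k hjJ)
    _ = K * 2 ^ (J * k) * ∑ j ∈ range (J + 1), (2 : ℝ) ^ j / ((j : ℝ) + 1) ^ U := by
        rw [Finset.mul_sum]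
        exact Finset.sum_congr rfl fun j _ => by ring
    _ ≤ K * 2 ^ (J * k) * (C * (2 ^ J / ((J : ℝ) + 1) ^ U)) := mul_le_mul_of_nonneg_left (hC J) (by positivity)
    _ = K * C * (2 ^ J) ^ (k + 1) / ((J : ℝ) + 1) ^ U := by rw [← pow_mul, show J * (k + 1) = J * k + J by ring, pow_add]; ring
    _ ≤ K * C * (2 * Real.log 2) ^ U * X ^ ((k : ℝ) + 1) / (Real.log X) ^ (U : ℝ) := by
        rw [Real.rpow_natCast, div_le_div_iff₀ (by positivity) (by positivity)]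
        have e0 : X ^ ((k : ℝ) + 1) = X ^ (k + 1) := by
          rw [← Real.rpow_natCast]
          push_cast
          rfl
        rw [e0]
        have e3 : (Real.log X) ^ U ≤ (2 * Real.log 2) ^ U * ((J : ℝ) + 1) ^ U := by
          rw [← mul_pow]
          exact pow_le_pow_left₀ hlX.le hlJ U
        have e4 : ((2 : ℝ) ^ J) ^ (k + 1) ≤ X ^ (k + 1) := pow_le_pow_left₀ (by positivity) hJ1' _
        have hKC : 0 ≤ K * C := by positivity
        calc K * C * (2 ^ J) ^ (k + 1) * (Real.log X) ^ U ≤ K * C * X ^ (k + 1) * ((2 * Real.log 2) ^ U * ((J : ℝ) + 1) ^ U) := by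
              apply mul_le_mul (mul_le_mul_of_nonneg_left e4 hKC) e3 (by positivity) (by positivity)
          _ = _ := by ring

lemma VectorsFinitelyMet.subset {k : ℕ} {W W' : Set ((Fin k → ℤ) × ℕ)} (h : VectorsFinitelyMet k W)
    (hW : ∀ t, 1 ≤ t.2 → t ∈ W' → t ∈ W) : VectorsFinitelyMet k W' := by
  filter_upwards [h] with α hα c
  exact (hα c).subset fun t ht => ⟨hW t ht.2.1 ht.1, ht.2⟩

/-- only vectors with large last coordinate matter, if `α` is given and the cone is bounded: the small ones are finitely many -/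
lemma near_small_finite {k : ℕ} (α : Fin k → ℝ) (c τ : ℝ) (q₀ : ℕ) : {t : (Fin k → ℤ) × ℕ | t.2 < q₀ ∧ Near c τ α t}.Finite := by
  have h : ∀ q : ℕ, {t : (Fin k → ℤ) × ℕ | t.2 = q ∧ Near c τ α t}.Finite := by
    intro q
    refine (Finset.finite_toSet ((Fintype.piFinset fun i : Fin k => Icc (⌊(q : ℝ) * α i - c * (q : ℝ) ^ (-τ)⌋)
      (⌈(q : ℝ) * α i + c * (q : ℝ) ^ (-τ)⌉)) ×ˢ {q})).subset ?_
    rintro ⟨p, q'⟩ ⟨h1, h2, h3⟩
    simp only at h1 h2 h3
    subst h1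
    rw [mem_coe, mem_product, Fintype.mem_piFinset]
    refine ⟨fun i => ?_, by simp⟩
    rw [mem_Icc]
    have h4 := abs_le.1 (h3 i)
    constructor
    · have : (⌊(q' : ℝ) * α i - c * (q' : ℝ) ^ (-τ)⌋ : ℝ) ≤ p i := (Int.floor_le _).trans (by linarith [h4.2])
      exact_mod_cast this
    · have : (p i : ℝ) ≤ ⌈(q' : ℝ) * α i + c * (q' : ℝ) ^ (-τ)⌉ := le_trans (by linarith [h4.1]) (Int.le_ceil _)
      exact_mod_cast this
  refine (Set.Finite.biUnion (Finset.finite_toSet (range q₀)) fun q _ => h q).subset ?_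
  rintro t ⟨h1, h2⟩
  rw [Set.mem_iUnion₂]
  exact ⟨t.2, by simpa using h1, rfl, h2⟩

lemma VectorsFinitelyMet.large {k : ℕ} {W W' : Set ((Fin k → ℤ) × ℕ)} (h : VectorsFinitelyMet k W) (q₀ : ℕ)
    (hW : ∀ t, q₀ ≤ t.2 → t ∈ W' → t ∈ W) : VectorsFinitelyMet k W' := by
  filter_upwards [h] with α hα c
  refine ((hα c).union (near_small_finite α c (1 / k) q₀)).subset ?_
  rintro t ⟨h1, h2⟩
  rcases lt_or_ge t.2 q₀ with h3 | h3
  · exact Or.inr ⟨h3, h2⟩
  · exact Or.inl ⟨hW t h3 h1, h2⟩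

/-- the same for the denominators -/
lemma FinitelyMet.large {W W' : Set ℕ} (h : FinitelyMet W) (q₀ : ℕ) (hW : ∀ q, q₀ ≤ q → q ∈ W' → q ∈ W) : FinitelyMet W' := by
  obtain ⟨h1, h2⟩ := h
  refine ⟨fun k hk => ?_, ?_⟩
  · filter_upwards [h1 k hk] with α hα c
    refine ((hα c).union (Set.finite_lt_nat q₀)).subset ?_
    rintro q ⟨hq1, hq2⟩
    rcases lt_or_ge q q₀ with h3 | h3
    · exact Or.inr h3
    · exact Or.inl ⟨hq1, hW q h3 hq2⟩
  · have hirr : ∀ᵐ ξ : ℝ, ξ ∉ Set.range ((↑) : ℚ → ℝ) := (Set.countable_range ((↑) : ℚ → ℝ)).ae_notMem volume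
    filter_upwards [h2, hirr] with ξ hξ hi
    have h5 := (convergent_approx (ξ := ξ) hi).2
    filter_upwards [hξ, h5.eventually (eventually_ge_atTop q₀)] with n hn hq hn'
    exact hn (hW _ hq hn')

/-- the `n`-th convergent as an integer vector -/
noncomputable def conv (ξ : ℝ) (n : ℕ) : (Fin 1 → ℤ) × ℕ := (fun _ => (ξ.convergent n).num, (ξ.convergent n).den)

open GenContFract in
lemma conv_near {ξ : ℝ} (hξ : Irrational ξ) (n : ℕ) : Near 1 (1 / ((1 : ℕ) : ℝ)) (fun _ => ξ) (conv ξ n) := by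
  have hq1 : 1 ≤ (ξ.convergent n).den := (ξ.convergent n).den_pos
  have hq : (1 : ℝ) ≤ ((ξ.convergent n).den : ℝ) := by exact_mod_cast hq1
  have hq0 : (0 : ℝ) < ((ξ.convergent n).den : ℝ) := by linarith
  refine ⟨hq1, fun _ => ?_⟩
  have h1 := abs_sub_convs_le (v := ξ) (not_term hξ n)
  rw [Real.convs_eq_convergent, ← convergent_data hξ n] at h1
  have h2 : ((ξ.convergent n).den : ℝ) ≤ (GenContFract.of ξ).dens (n + 1) := by
    rw [convergent_data hξ n]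
    exact of_den_mono
  have h3 : ((ξ.convergent n : ℚ) : ℝ) = ((ξ.convergent n).num : ℝ) / ((ξ.convergent n).den : ℝ) := by
    exact_mod_cast (Rat.num_div_den (ξ.convergent n)).symm
  have h4 : ((ξ.convergent n).den : ℝ) * ξ - ((ξ.convergent n).num : ℝ) =
      ((ξ.convergent n).den : ℝ) * (ξ - ((ξ.convergent n : ℚ) : ℝ)) := by
    rw [h3]
    field_simp
  unfold conv
  simp only
  rw [h4, abs_mul, abs_of_pos hq0, one_mul, Nat.cast_one, div_one, Real.rpow_neg_one]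
  calc ((ξ.convergent n).den : ℝ) * |ξ - ((ξ.convergent n : ℚ) : ℝ)|
      ≤ ((ξ.convergent n).den : ℝ) * (1 / (((ξ.convergent n).den : ℝ) * (GenContFract.of ξ).dens (n + 1))) :=
        mul_le_mul_of_nonneg_left h1 hq0.le
    _ = ((GenContFract.of ξ).dens (n + 1))⁻¹ := by
        field_simp
    _ ≤ (((ξ.convergent n).den : ℝ))⁻¹ := inv_anti₀ hq0 h2

/-- **V2: the convergents `(p_n, q_n)` as vectors.** -/
theorem conv_not_mem {W : Set ((Fin 1 → ℤ) × ℕ)} (h : VectorsFinitelyMet 1 W) : ∀ᵐ ξ : ℝ, ∀ᶠ n : ℕ in atTop, conv ξ n ∉ W := by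
  have h1 := (volume_preserving_funUnique (Fin 1) ℝ).symm.quasiMeasurePreserving.ae h
  have h2 : ∀ᵐ ξ : ℝ, ξ ∉ Set.range ((↑) : ℚ → ℝ) := (Set.countable_range ((↑) : ℚ → ℝ)).ae_notMem volume
  filter_upwards [h1, h2] with ξ hξ hirr
  have h3 := hξ 1
  have h5 := (convergent_approx (ξ := ξ) hirr).2
  have h6 : Tendsto (fun n : ℕ => conv ξ n) atTop cofinite := by
    intro s hs
    have hfin : (sᶜ).Finite := hs
    obtain ⟨b, hb⟩ := (hfin.image Prod.snd).bddAbove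
    rw [Filter.mem_map]
    filter_upwards [h5.eventually (eventually_gt_atTop b)] with n hn
    by_contra hcon
    have := hb (Set.mem_image_of_mem Prod.snd (show conv ξ n ∈ sᶜ from hcon))
    have h7 : (conv ξ n).2 = (ξ.convergent n).den := rfl
    omega
  filter_upwards [h6.eventually h3.compl_mem_cofinite] with n hn hW
  exact hn ⟨hW, conv_near hirr n⟩

end Pool.Agent.N220.CF
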